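import Pool.Agent.Lib.MP_3d915a_al.EG.Defs

/-!
# EG-Basis: an integral spanning set of `VS m M` with small entries

The set `s = {v | ∃ l, Walk m l ∧ l.length ≤ M ∧ v = vis l}`: there are `d = finrank (span s) ≤ L` elements of `s` with the same
span (`Submodule.exists_fun_fin_finrank_span_eq` or `exists_linearIndependent`; `finrank (ZMod L → ℚ) = card (ZMod L) = L`).
Index them by `ZMod L`: `r k` is the visit vector (over `ℤ`) of the element number `k.val` if `k.val < d`, and `0` otherwise.
`|l.count i| ≤ l.length ≤ M`; `∑ i, m i * l.count i = (l.map m).sum = 0` for a walk (`Finset.sum_multiset_map_count` or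
`Finset.sum_list_map_count`-type lemma, or induction on `l`).
-/

namespace Pool.Agent.Lib.MP_3d915a_al.EG

theorem sum_mul_count {L : ℕ} [NeZero L] (m : ZMod L → ℤ) (l : List (ZMod L)) :
    ∑ i, m i * (l.count i : ℤ) = (l.map m).sum := by
  induction l with
  | nil => simp
  | cons a l ih =>
    rw [List.map_cons, List.sum_cons, ← ih]
    have h1 : ∀ i : ZMod L, m i * (((a :: l).count i : ℕ) : ℤ) =
        m i * (l.count i : ℤ) + (if i = a then m i else 0) := by
      intro i
      rw [List.count_cons]
      by_cases h : i = a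
      · subst h
        simp
        ring
      · have h' : ¬ a = i := fun h2 => h h2.symm
        simp [h, h']
    rw [Finset.sum_congr rfl (fun i _ => h1 i), Finset.sum_add_distrib]
    rw [Finset.sum_ite_eq' Finset.univ a m]
    simp
    ring

theorem basis {L : ℕ} [NeZero L] (m : ZMod L → ℤ) (M : ℕ) :
    ∃ r : ZMod L → ZMod L → ℤ, (∀ k i, |r k i| ≤ M) ∧ (∀ k, ∑ i, m i * r k i = 0) ∧
      ∀ v : ZMod L → ℚ, v ∈ VS m M ↔ ∃ c : ZMod L → ℚ, ∀ i, v i = ∑ k, c k * (r k i : ℚ) := by
  classical
  obtain ⟨f, hf, hspan, -⟩ := Submodule.exists_fun_fin_finrank_span_eq ℚ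
    {v : ZMod L → ℚ | ∃ l, Walk m l ∧ l.length ≤ M ∧ v = vis l}
  generalize hd : Module.finrank ℚ
    (Submodule.span ℚ {v : ZMod L → ℚ | ∃ l, Walk m l ∧ l.length ≤ M ∧ v = vis l}) = d at f hf hspan
  have hdL : Fintype.card (Fin d) ≤ Fintype.card (ZMod L) := by
    rw [Fintype.card_fin, ← hd]
    have := Submodule.finrank_le
      (Submodule.span ℚ {v : ZMod L → ℚ | ∃ l, Walk m l ∧ l.length ≤ M ∧ v = vis l})
    simpa using this
  obtain ⟨e⟩ := Function.Embedding.nonempty_of_card_le hdL
  choose w hw using hf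
  set r : ZMod L → ZMod L → ℤ :=
    Function.extend e (fun a i => (((w a).count i : ℕ) : ℤ)) 0 with hr
  have hre : ∀ a, r (e a) = fun i => (((w a).count i : ℕ) : ℤ) := by
    intro a
    rw [hr]
    exact e.injective.extend_apply _ _ a
  have hr0 : ∀ k, (¬ ∃ a, e a = k) → r k = 0 := by
    intro k hk
    rw [hr]
    rw [Function.extend_apply' _ _ _ hk]
    rfl
  refine ⟨r, ?_, ?_, ?_⟩
  · intro k i
    by_cases hk : ∃ a, e a = k
    · obtain ⟨a, rfl⟩ := hk
      rw [hre a]
      have h1 : (w a).count i ≤ M := List.count_le_length.trans (hw a).2.1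
      show |(((w a).count i : ℕ) : ℤ)| ≤ (M : ℤ)
      rw [abs_of_nonneg (by positivity)]
      exact_mod_cast h1
    · rw [hr0 k hk]
      simp
  · intro k
    by_cases hk : ∃ a, e a = k
    · obtain ⟨a, rfl⟩ := hk
      rw [hre a]
      rw [sum_mul_count m (w a)]
      exact (hw a).1.2
    · rw [hr0 k hk]
      simp
  · intro v
    have hsp : VS m M = Submodule.span ℚ (Set.range (fun k : ZMod L => fun i => ((r k i : ℤ) : ℚ))) := by
      apply le_antisymm
      · show Submodule.span ℚ _ ≤ _
        rw [← hspan]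
        apply Submodule.span_mono
        rintro _ ⟨a, rfl⟩
        refine ⟨e a, ?_⟩
        funext i
        rw [(hw a).2.2]
        simp [hre a, vis]
      · apply Submodule.span_le.2
        rintro _ ⟨k, rfl⟩
        by_cases hk : ∃ a, e a = k
        · obtain ⟨a, rfl⟩ := hk
          apply Submodule.subset_span
          refine ⟨w a, (hw a).1, (hw a).2.1, ?_⟩
          funext i
          simp [hre a, vis]
        · have : (fun i => ((r k i : ℤ) : ℚ)) = 0 := by
            funext i
            simp [hr0 k hk]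
          show (fun i => ((r k i : ℤ) : ℚ)) ∈ VS m M
          rw [this]
          exact Submodule.zero_mem _
    rw [hsp, Submodule.mem_span_range_iff_exists_fun]
    constructor
    · rintro ⟨c, hc⟩
      refine ⟨c, fun i => ?_⟩
      rw [← hc]
      simp [Finset.sum_apply]
    · rintro ⟨c, hc⟩
      refine ⟨c, ?_⟩
      funext i
      rw [hc i]
      simp [Finset.sum_apply]

end Pool.Agent.Lib.MP_3d915a_al.EG
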