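import Pool.Agent.Lib.MP_3d915a_al.EG.MinSol

/-!
# EG-Cone: every non-negative solution is a combination of few small ones

Induction on the number `k` of the `j` with `x j ≠ 0`, with `l.length ≤ k` in the conclusion. `x = 0`: `l = []`.
Otherwise `min_sol` gives `y ≠ 0`; `c = min {x j / y j : y j ≠ 0}` (`Finset.exists_min_image`) is positive (`y j ≠ 0 → x j ≠ 0`)
and attained at `j₀`; `x' = x - c * y ≥ 0` is a solution, `x' j₀ = 0` and `x j = 0 → x' j = 0`, so it has fewer non-zero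
coordinates: `l = (c, y) :: l'`.
-/

namespace Pool.Agent.Lib.MP_3d915a_al.EG

private theorem cone_aux {ι ρ : Type} [Fintype ι] [DecidableEq ι] [Fintype ρ] (A : ρ → ι → ℤ) (M : ℕ)
    (hM : 1 ≤ M) (hA : ∀ r j, |A r j| ≤ M) : ∀ (n : ℕ) (x : ι → ℚ),
    (Finset.univ.filter (fun j => x j ≠ 0)).card ≤ n → (∀ j, 0 ≤ x j) →
    (∀ r, ∑ j, (A r j : ℚ) * x j = 0) →
    ∃ l : List (ℚ × (ι → ℕ)), l.length ≤ n ∧
      (∀ q ∈ l, 0 < q.1 ∧ (∀ r, ∑ j, A r j * (q.2 j : ℤ) = 0) ∧
        ∀ j, q.2 j ≤ (Fintype.card ι * M) ^ Fintype.card ρ) ∧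
      ∀ j, x j = (l.map (fun q => q.1 * (q.2 j : ℚ))).sum := by
  intro n
  induction n with
  | zero =>
    intro x hn h0 hx
    have hx0 : ∀ j, x j = 0 := by
      intro j
      by_contra h
      have h1 : j ∈ Finset.univ.filter (fun j => x j ≠ 0) := by simp [h]
      have h2 := Finset.card_pos.2 ⟨j, h1⟩
      omega
    refine ⟨[], le_refl _, ?_, ?_⟩
    · intro q hq
      simp at hq
    · intro j
      simp [hx0 j]
  | succ n ih =>
    intro x hn h0 hx
    by_cases hx0 : x = 0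
    · refine ⟨[], by simp, ?_, ?_⟩
      · intro q hq
        simp at hq
      · intro j
        simp [hx0]
    · obtain ⟨y, hy0, hyA, hyx, hyb⟩ := min_sol A M hM hA x h0 hx0 hx
      obtain ⟨j1, hj1⟩ := Function.ne_iff.1 hy0
      obtain ⟨j0, hj0m, hj0⟩ := Finset.exists_min_image (Finset.univ.filter (fun j => y j ≠ 0))
        (fun j => x j / (y j : ℚ)) ⟨j1, by simpa using hj1⟩
      have hyj0 : y j0 ≠ 0 := by simpa using hj0m
      have hyj0' : (0 : ℚ) < y j0 := by exact_mod_cast Nat.pos_of_ne_zero hyj0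
      have hxj0 : x j0 ≠ 0 := fun h => hyj0 (hyx j0 h)
      have hxj0' : 0 < x j0 := lt_of_le_of_ne (h0 j0) (Ne.symm hxj0)
      set c : ℚ := x j0 / (y j0 : ℚ) with hc
      have hcpos : 0 < c := div_pos hxj0' hyj0'
      have hle : ∀ j, c * (y j : ℚ) ≤ x j := by
        intro j
        by_cases hj : y j = 0
        · rw [hj]
          simpa using h0 j
        · have h1 := hj0 j (by simpa using hj)
          have h2 : (0 : ℚ) < y j := by exact_mod_cast Nat.pos_of_ne_zero hj
          exact (le_div_iff₀ h2).1 h1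
      have hx'A : ∀ r, ∑ j, (A r j : ℚ) * (x j - c * (y j : ℚ)) = 0 := by
        intro r
        have h1 : ∑ j, (A r j : ℚ) * (y j : ℚ) = 0 := by exact_mod_cast hyA r
        have h2 : ∑ j, (A r j : ℚ) * (x j - c * (y j : ℚ)) =
            ∑ j, (A r j : ℚ) * x j - c * ∑ j, (A r j : ℚ) * (y j : ℚ) := by
          rw [Finset.mul_sum, ← Finset.sum_sub_distrib]
          exact Finset.sum_congr rfl (fun j _ => by ring)
        rw [h2, hx r, h1]
        ring
      have hx'j0 : x j0 - c * (y j0 : ℚ) = 0 := by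
        rw [hc, div_mul_cancel₀ _ hyj0'.ne', sub_self]
      have hcard : (Finset.univ.filter (fun j => x j - c * (y j : ℚ) ≠ 0)).card ≤ n := by
        have hss : Finset.univ.filter (fun j => x j - c * (y j : ℚ) ≠ 0) ⊂
            Finset.univ.filter (fun j => x j ≠ 0) := by
          rw [Finset.ssubset_iff_of_subset]
          · exact ⟨j0, by simpa using hxj0, by simp [hx'j0]⟩
          · intro j hj
            simp only [Finset.mem_filter, Finset.mem_univ, true_and] at hj ⊢
            intro h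
            apply hj
            rw [h, hyx j h]
            simp
        have := Finset.card_lt_card hss
        omega
      obtain ⟨l, hlen, hl, hlx⟩ := ih (fun j => x j - c * (y j : ℚ)) hcard
        (fun j => sub_nonneg.2 (hle j)) hx'A
      refine ⟨(c, y) :: l, ?_, ?_, ?_⟩
      · simpa using hlen
      · intro q hq
        rcases List.mem_cons.1 hq with h | h
        · subst h
          exact ⟨hcpos, hyA, hyb⟩
        · exact hl q h
      · intro j
        have h1 := hlx j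
        simp only [List.map_cons, List.sum_cons]
        rw [← h1]
        ring

theorem cone {ι ρ : Type} [Fintype ι] [DecidableEq ι] [Fintype ρ] (A : ρ → ι → ℤ) (M : ℕ)
    (hM : 1 ≤ M) (hA : ∀ r j, |A r j| ≤ M) (x : ι → ℚ) (h0 : ∀ j, 0 ≤ x j)
    (hx : ∀ r, ∑ j, (A r j : ℚ) * x j = 0) :
    ∃ l : List (ℚ × (ι → ℕ)), l.length ≤ Fintype.card ι ∧
      (∀ q ∈ l, 0 < q.1 ∧ (∀ r, ∑ j, A r j * (q.2 j : ℤ) = 0) ∧
        ∀ j, q.2 j ≤ (Fintype.card ι * M) ^ Fintype.card ρ) ∧
      ∀ j, x j = (l.map (fun q => q.1 * (q.2 j : ℚ))).sum :=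
  cone_aux A M hM hA (Fintype.card ι) x (Finset.card_le_univ _) h0 hx

/-- a coordinate that vanishes in a sum of non-negative terms vanishes in all of them -/
theorem cone_supp {ι : Type} {x : ι → ℚ} {l : List (ℚ × (ι → ℕ))} (hl : ∀ q ∈ l, 0 < q.1)
    (hx : ∀ j, x j = (l.map (fun q => q.1 * (q.2 j : ℚ))).sum) {j : ι} (hj : x j = 0) :
    ∀ q ∈ l, q.2 j = 0 := by
  have h1 : (l.map (fun q => q.1 * (q.2 j : ℚ))).sum = 0 := by rw [← hx j, hj]
  have hnn : ∀ a ∈ l.map (fun q => q.1 * (q.2 j : ℚ)), (0 : ℚ) ≤ a := by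
    intro a ha
    obtain ⟨q, hq, rfl⟩ := List.mem_map.1 ha
    exact mul_nonneg (hl q hq).le (Nat.cast_nonneg _)
  intro q hq
  have h2 : q.1 * (q.2 j : ℚ) ≤ 0 := by
    rw [← h1]
    exact List.single_le_sum hnn _ (List.mem_map.2 ⟨q, hq, rfl⟩)
  have h3 : (q.2 j : ℚ) ≤ 0 := by
    by_contra h
    push Not at h
    have := mul_pos (hl q hq) h
    linarith
  have h4 : (q.2 j : ℚ) = 0 := le_antisymm h3 (Nat.cast_nonneg _)
  exact_mod_cast h4

private theorem cone_fsum {ι : Type} [Fintype ι] (f : ι → ℚ) : ∀ (l : List (ℚ × (ι → ℕ))),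
    ∑ j, f j * (l.map (fun q => q.1 * (q.2 j : ℚ))).sum =
      (l.map (fun q => q.1 * ∑ j, f j * (q.2 j : ℚ))).sum
  | [] => by simp
  | q :: l => by
    simp only [List.map_cons, List.sum_cons]
    rw [← cone_fsum f l, Finset.mul_sum, ← Finset.sum_add_distrib]
    exact Finset.sum_congr rfl (fun j _ => by ring)

private theorem cone_nonpos : ∀ (l : List ℚ), (∀ a ∈ l, a ≤ 0) → l.sum ≤ 0
  | [], _ => by simp
  | a :: l, h => by
    rw [List.sum_cons]
    have h1 := h a (by simp)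
    have h2 := cone_nonpos l (fun b hb => h b (by simp [hb]))
    linarith

/-- if a linear functional is positive on the sum, then it is positive on one of the terms -/
theorem cone_pos {ι : Type} [Fintype ι] {x : ι → ℚ} {l : List (ℚ × (ι → ℕ))}
    (hl : ∀ q ∈ l, 0 < q.1) (hx : ∀ j, x j = (l.map (fun q => q.1 * (q.2 j : ℚ))).sum)
    (f : ι → ℚ) (hf : 0 < ∑ j, f j * x j) : ∃ q ∈ l, 0 < ∑ j, f j * (q.2 j : ℚ) := by
  by_contra h
  push Not at h
  have h1 : ∑ j, f j * x j = (l.map (fun q => q.1 * ∑ j, f j * (q.2 j : ℚ))).sum := by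
    rw [← cone_fsum f l]
    exact Finset.sum_congr rfl (fun j _ => by rw [← hx j])
  have h2 : (l.map (fun q => q.1 * ∑ j, f j * (q.2 j : ℚ))).sum ≤ 0 := by
    apply cone_nonpos
    intro a ha
    obtain ⟨q, hq, rfl⟩ := List.mem_map.1 ha
    exact mul_nonpos_of_nonneg_of_nonpos (hl q hq).le (h q hq)
  rw [h1] at hf
  linarith

end Pool.Agent.Lib.MP_3d915a_al.EG
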