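import Pool.Agent.Lib.MP_3d915a_al.EG.Rows

/-!
# EG-Dec: a solution of the linear program gives a solution

`rows` (over `ℤ`) gives the four equations. Choose for every `D` with `y (.xa D) ≠ 0` a walk `wA D` (`[]` otherwise); `DA` is the
concatenation over `D ∈ Finset.univ.toList` of `List.replicate (y (.xa D)) (wA D)`; so `DA.length = ∑ D, y (.xa D)` and
`(DA.map (fun l => cnt l i j)).sum = ∑ D, y (.xa D) * D (i, j)` (`List.flatMap`, `List.sum_toFinset`/`Finset.sum_toList`-type lemmas: a
private lemma `∀ s : List (DD L S), ...` by induction, then `Finset.sum_map_toList`). The same for `DB`.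
-/

namespace Pool.Agent.Lib.MP_3d915a_al.EG

private theorem dc_list {L S : ℕ} (c : DD L S → ℕ) (w : DD L S → List (ZMod L)) (i j : ZMod L)
    (s : List (DD L S)) :
    ((s.flatMap fun D => List.replicate (c D) (w D)).map (fun l => cnt l i j)).sum =
        (s.map fun D => c D * cnt (w D) i j).sum ∧
      (s.flatMap fun D => List.replicate (c D) (w D)).length = (s.map c).sum := by
  induction s with
  | nil => simp
  | cons D s ih =>
    obtain ⟨h1, h2⟩ := ih
    constructor
    · rw [List.flatMap_cons, List.map_append, List.sum_append, h1, List.map_cons, List.sum_cons,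
        List.map_replicate, List.sum_replicate, smul_eq_mul]
    · rw [List.flatMap_cons, List.length_append, h2, List.map_cons, List.sum_cons,
        List.length_replicate]

private theorem dc_fam {L S : ℕ} [NeZero L] (m : ZMod L → ℤ) (c : DD L S → ℕ)
    (h : ∀ D, c D ≠ 0 → ∃ l, Walk m l ∧ ∀ i j, cnt l i j = (D (i, j) : ℕ)) :
    ∃ W : List (List (ZMod L)), (∀ l ∈ W, Walk m l) ∧ W.length = ∑ D, c D ∧
      ∀ i j, (W.map (fun l => cnt l i j)).sum = ∑ D, (D (i, j) : ℕ) * c D := by
  classical
  have h' : ∀ D, ∃ l : List (ZMod L), c D ≠ 0 → Walk m l ∧ ∀ i j, cnt l i j = (D (i, j) : ℕ) := by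
    intro D
    by_cases hD : c D = 0
    · exact ⟨[], fun h0 => absurd hD h0⟩
    · obtain ⟨l, hl⟩ := h D hD
      exact ⟨l, fun _ => hl⟩
  choose w hw using h'
  refine ⟨Finset.univ.toList.flatMap fun D => List.replicate (c D) (w D), ?_, ?_, ?_⟩
  · intro l hl
    rw [List.mem_flatMap] at hl
    obtain ⟨D, -, hD⟩ := hl
    rw [List.mem_replicate] at hD
    obtain ⟨h1, rfl⟩ := hD
    exact (hw D h1).1
  · rw [(dc_list c w 0 0 _).2]
    exact Finset.sum_map_toList _ _
  · intro i j
    rw [(dc_list c w i j _).1, Finset.sum_map_toList]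
    refine Finset.sum_congr rfl fun D _ => ?_
    by_cases hD : c D = 0
    · rw [hD, zero_mul, mul_zero]
    · rw [(hw D hD).2 i j, mul_comm]

theorem dec {L S : ℕ} [NeZero L] (m p : ZMod L → ℤ) (y : Va L S → ℕ)
    (hy : ∀ e, ∑ v, lpm L S e v * (y v : ℤ) = 0)
    (hA : ∀ D, y (.xa D) ≠ 0 → ∃ l, Walk m l ∧ ∀ i j, cnt l i j = (D (i, j) : ℕ))
    (hB : ∀ D, y (.xb D) ≠ 0 → ∃ l, Walk p l ∧ ∀ i j, cnt l i j = (D (i, j) : ℕ)) :
    Sol L (y .n) m p (∑ D, y (.xa D) + ∑ D, y (.xb D)) := by
  obtain ⟨WA, hA1, hA2, hA3⟩ := dc_fam m (fun D => y (.xa D)) hA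
  obtain ⟨WB, hB1, hB2, hB3⟩ := dc_fam p (fun D => y (.xb D)) hB
  have hy' : ∀ e, ∑ v, ((lpm L S e v : ℤ) : ℤ) * (y v : ℤ) = 0 := fun e => by
    simpa using hy e
  obtain ⟨r1, r2, r3, r4⟩ := (rows (R := ℤ) (fun v => (y v : ℤ))).1 hy'
  refine ⟨fun i j => y (.y i j), WA, WB, ?_, ?_, hA1, hB1, ?_, ?_, ?_⟩
  · intro i
    have := r1 i
    exact_mod_cast this
  · intro j
    have := r2 j
    exact_mod_cast this
  · intro i j
    rw [hA3]
    have h : y (.sa i j) + ∑ D : DD L S, (D (i, j) : ℕ) * y (.xa D) = y (.y i j) := by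
      have := r3 i j
      exact_mod_cast this
    show ∑ D : DD L S, (D (i, j) : ℕ) * y (.xa D) ≤ y (.y i j)
    omega
  · intro k i
    rw [hB3]
    have h : y (.sb k i) + ∑ D : DD L S, (D (k, i) : ℕ) * y (.xb D) = y (.y i (k + 1)) := by
      have := r4 k i
      exact_mod_cast this
    show ∑ D : DD L S, (D (k, i) : ℕ) * y (.xb D) ≤ y (.y i (k + 1))
    omega
  · rw [hA2, hB2]

/-- a solution of size `0` has no discs -/
theorem sol_zero {L z : ℕ} [NeZero L] (m p : ZMod L → ℤ) (h : Sol L 0 m p z) : z = 0 := by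
  obtain ⟨Y, DA, DB, h1, h2, hA, hB, hYA, hYB, rfl⟩ := h
  have hY : ∀ i j, Y i j = 0 := by
    intro i j
    have := h1 i
    rw [Finset.sum_eq_zero_iff] at this
    exact this j (Finset.mem_univ j)
  have key : ∀ (m : ZMod L → ℤ) (W : List (List (ZMod L))), (∀ l ∈ W, Walk m l) →
      (∀ i j, (W.map (fun l => cnt l i j)).sum ≤ 0) → W.length = 0 := by
    intro m W hW hz
    rcases W with _ | ⟨l, W⟩
    · rfl
    · exfalso
      obtain ⟨a, t, rfl⟩ := List.exists_cons_of_ne_nil (hW l List.mem_cons_self).1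
      have h3 : ∑ j, cnt (a :: t) a j = (a :: t).count a := by
        have h4 : ∀ (P : List (ZMod L × ZMod L)) (i : ZMod L),
            ∑ j, P.count (i, j) = (P.map Prod.fst).count i := by
          intro P i
          induction P with
          | nil => simp
          | cons q P ih =>
            obtain ⟨b, c⟩ := q
            simp only [List.count_cons, List.map_cons, Finset.sum_add_distrib, ih]
            congr 1
            by_cases h : b = i
            · subst h
              simp
            · simp [h]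
        unfold cnt
        rw [h4, List.map_fst_zip (by simp)]
      have h5 : ∀ j, cnt (a :: t) a j = 0 := by
        intro j
        have := hz a j
        rw [List.map_cons, List.sum_cons] at this
        omega
      rw [Finset.sum_eq_zero fun j _ => h5 j] at h3
      have h6 : 0 < (a :: t).count a := List.count_pos_iff.2 List.mem_cons_self
      omega
  have e1 := key m DA hA (fun i j => by rw [← hY i j]; exact hYA i j)
  have e2 := key p DB hB (fun k i => by rw [← hY i (k + 1)]; exact hYB k i)
  rw [e1, e2]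

end Pool.Agent.Lib.MP_3d915a_al.EG
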