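import Pool.Agent.Lib.MP_3d915a_al.SCL.Defs

/-!
# The explicit gap for words with a bounded number of syllables: definitions
-/

namespace Pool.Agent.Lib.MP_3d915a_al.EG

/-- the numbers of visits of the list `l` -/
def vis {L : ℕ} (l : List (ZMod L)) : ZMod L → ℚ := fun i => (l.count i : ℚ)

/-- the span of the visit vectors of the walks of length at most `M` -/
def VS {L : ℕ} (m : ZMod L → ℤ) (M : ℕ) : Submodule ℚ (ZMod L → ℚ) :=
  Submodule.span ℚ {v | ∃ l, Walk m l ∧ l.length ≤ M ∧ v = vis l}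

/-- the bound for the length of the minimal walks -/
def SB (L M : ℕ) : ℕ := (L ^ 2 + 2 * L) * L ^ 2 * ((L ^ 2 + 2 * L) * M) ^ (2 * L)

/-- the bound for the size of the small solutions with walks of length at most `S` -/
def LB (L S : ℕ) : ℕ := ((3 * L ^ 2 + 1 + 2 * (S + 1) ^ (L ^ 2)) * S) ^ (2 * L ^ 2 + 2 * L)

/-- the scales -/
def MM (L Q : ℕ) : ℕ → ℕ
  | 0 => 1
  | i + 1 => 4 * L * Q * LB L (SB L (MM L Q i))

/-- a solution of size `n` with `z` discs, all of length at most `S` -/
def SolS (L n S : ℕ) [NeZero L] (m p : ZMod L → ℤ) (z : ℕ) : Prop :=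
  ∃ (Y : ZMod L → ZMod L → ℕ) (DA DB : List (List (ZMod L))),
    (∀ i, ∑ j, Y i j = n) ∧ (∀ j, ∑ i, Y i j = n) ∧
    (∀ l ∈ DA, Walk m l ∧ l.length ≤ S) ∧ (∀ l ∈ DB, Walk p l ∧ l.length ≤ S) ∧
    (∀ i j, (DA.map (fun l => cnt l i j)).sum ≤ Y i j) ∧
    (∀ k i, (DB.map (fun l => cnt l k i)).sum ≤ Y i (k + 1)) ∧
    DA.length + DB.length = z

/-! ### the linear program -/

/-- numbers of transitions of the walks of length at most `S` -/
abbrev DD (L S : ℕ) := ZMod L × ZMod L → Fin (S + 1)

/-- the variables of the linear program -/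
inductive Va (L S : ℕ)
  /-- the entries of `Y` -/
  | y (i j : ZMod L)
  /-- the slack of `A` -/
  | sa (i j : ZMod L)
  /-- the slack of `B` -/
  | sb (k i : ZMod L)
  /-- the number of walks of `A` with the transitions `D` -/
  | xa (D : DD L S)
  /-- the number of walks of `B` with the transitions `D` -/
  | xb (D : DD L S)
  /-- the size -/
  | n

/-- the equations of the linear program -/
inductive Eqn (L : ℕ)
  /-- the row sums of `Y` -/
  | row (i : ZMod L)
  /-- the column sums of `Y` -/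
  | col (j : ZMod L)
  /-- the transitions of `A` -/
  | a (i j : ZMod L)
  /-- the transitions of `B` -/
  | b (k i : ZMod L)

variable {L S : ℕ}

/-- the variables as a sum type -/
def vaE (L S : ℕ) : Va L S ≃
    (ZMod L × ZMod L) ⊕ (ZMod L × ZMod L) ⊕ (ZMod L × ZMod L) ⊕ DD L S ⊕ DD L S ⊕ Unit where
  toFun
    | .y i j => .inl (i, j)
    | .sa i j => .inr (.inl (i, j))
    | .sb k i => .inr (.inr (.inl (k, i)))
    | .xa D => .inr (.inr (.inr (.inl D)))
    | .xb D => .inr (.inr (.inr (.inr (.inl D))))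
    | .n => .inr (.inr (.inr (.inr (.inr ()))))
  invFun
    | .inl q => .y q.1 q.2
    | .inr (.inl q) => .sa q.1 q.2
    | .inr (.inr (.inl q)) => .sb q.1 q.2
    | .inr (.inr (.inr (.inl D))) => .xa D
    | .inr (.inr (.inr (.inr (.inl D)))) => .xb D
    | .inr (.inr (.inr (.inr (.inr ())))) => .n
  left_inv v := by cases v <;> rfl
  right_inv v := by rcases v with q | q | q | D | D | _ <;> rfl

/-- the equations as a sum type -/
def eqnE (L : ℕ) : Eqn L ≃ ZMod L ⊕ ZMod L ⊕ (ZMod L × ZMod L) ⊕ (ZMod L × ZMod L) where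
  toFun
    | .row i => .inl i
    | .col j => .inr (.inl j)
    | .a i j => .inr (.inr (.inl (i, j)))
    | .b k i => .inr (.inr (.inr (k, i)))
  invFun
    | .inl i => .row i
    | .inr (.inl j) => .col j
    | .inr (.inr (.inl q)) => .a q.1 q.2
    | .inr (.inr (.inr q)) => .b q.1 q.2
  left_inv v := by cases v <;> rfl
  right_inv v := by rcases v with i | j | q | q <;> rfl

instance [NeZero L] : Fintype (Va L S) := Fintype.ofEquiv _ (vaE L S).symm

instance [NeZero L] : Fintype (Eqn L) := Fintype.ofEquiv _ (eqnE L).symm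

noncomputable instance : DecidableEq (Va L S) := Classical.decEq _

instance : DecidableEq (Eqn L) := (eqnE L).decidableEq

theorem card_va [NeZero L] :
    Fintype.card (Va L S) = 3 * L ^ 2 + 1 + 2 * (S + 1) ^ (L ^ 2) := by
  rw [Fintype.card_congr (vaE L S)]
  simp only [Fintype.card_sum, Fintype.card_prod, ZMod.card, Fintype.card_pi, Fintype.card_fin,
    Finset.prod_const, Finset.card_univ, Fintype.card_unit]
  ring

theorem card_eqn [NeZero L] : Fintype.card (Eqn L) = 2 * L ^ 2 + 2 * L := by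
  rw [Fintype.card_congr (eqnE L)]
  simp only [Fintype.card_sum, Fintype.card_prod, ZMod.card]
  ring

theorem sum_va [NeZero L] {R : Type*} [AddCommMonoid R] (f : Va L S → R) :
    ∑ v, f v = ∑ i, ∑ j, f (.y i j) + (∑ i, ∑ j, f (.sa i j) + (∑ k, ∑ i, f (.sb k i) +
      (∑ D, f (.xa D) + (∑ D, f (.xb D) + f .n)))) := by
  rw [← Equiv.sum_comp (vaE L S).symm]
  simp only [Fintype.sum_sum_type, Fintype.sum_prod_type, Finset.univ_unique, Finset.sum_singleton]
  rfl

/-- the coefficients of the linear program -/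
def lpm (L S : ℕ) : Eqn L → Va L S → ℤ
  | .row i, .y i' _ => if i' = i then 1 else 0
  | .row _, .n => -1
  | .col j, .y _ j' => if j' = j then 1 else 0
  | .col _, .n => -1
  | .a i j, .y i' j' => if i' = i ∧ j' = j then -1 else 0
  | .a i j, .sa i' j' => if i' = i ∧ j' = j then 1 else 0
  | .a i j, .xa D => ((D (i, j) : ℕ) : ℤ)
  | .b k i, .y i' j' => if i' = i ∧ j' = k + 1 then -1 else 0
  | .b k i, .sb k' i' => if k' = k ∧ i' = i then 1 else 0
  | .b k i, .xb D => ((D (k, i) : ℕ) : ℤ)
  | _, _ => 0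

end Pool.Agent.Lib.MP_3d915a_al.EG
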