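import Pool.Agent.Lib.MP_3d915a_al.EG.Rows

/-!
# EG-Enc: a solution with short walks gives a solution of the linear program

For a list `l` of length at most `S` let `key l : DD L S`, `key l q = ⟨min (cnt l q.1 q.2) S, _⟩` (`cnt l i j ≤ l.length ≤ S`: `cnt` is a `count`
in a list of length `l.length`), so `(key l (i, j) : ℕ) = cnt l i j`. `x (.xa D) =` the number of `l ∈ DA` with `key l = D`
(`(DA.filter (key · = D)).length` or `(DA.map key).count D`), the same for `xb`. Then
`∑ D, D (i, j) * x (.xa D) = (DA.map (fun l => cnt l i j)).sum` and `∑ D, x (.xa D) = DA.length` (induction on `DA`), and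
`x (.y i j) = Y i j`, `x .n = n`, `x (.sa i j) = Y i j - ..`, `x (.sb k i) = Y i (k + 1) - ..` (natural subtraction, exact).
-/

namespace Pool.Agent.Lib.MP_3d915a_al.EG

/-- the transition numbers of `l`, cut at `S` -/
private def key {L : ℕ} (S : ℕ) (l : List (ZMod L)) : DD L S :=
  fun q => ⟨min (cnt l q.1 q.2) S, by omega⟩

private theorem key_val {L S : ℕ} {l : List (ZMod L)} (h : l.length ≤ S) (i j : ZMod L) :
    ((key S l (i, j) : Fin (S + 1)) : ℕ) = cnt l i j := by
  have h1 : cnt l i j ≤ S := by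
    unfold cnt
    refine List.count_le_length.trans ?_
    simp only [List.length_zip, List.length_rotate, min_self]
    exact h
  simp only [key]
  omega

private theorem sum_key {L S : ℕ} [NeZero L] (DA : List (List (ZMod L)))
    (h : ∀ l ∈ DA, l.length ≤ S) (i j : ZMod L) :
    ∑ D : DD L S, (D (i, j) : ℕ) * (DA.map (key S)).count D =
      (DA.map (fun l => cnt l i j)).sum := by
  induction DA with
  | nil => simp
  | cons a t ih =>
    have ih' := ih (fun l hl => h l (List.mem_cons_of_mem _ hl))
    have ha := key_val (h a List.mem_cons_self) i j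
    simp only [List.map_cons, List.count_cons, List.sum_cons, mul_add, Finset.sum_add_distrib]
    rw [ih']
    have h2 : ∑ D : DD L S, (D (i, j) : ℕ) * (if (key S a == D) = true then 1 else 0) =
        (key S a (i, j) : ℕ) := by
      simp only [beq_iff_eq, mul_ite, mul_one, mul_zero]
      rw [Finset.sum_ite_eq Finset.univ (key S a) (fun D => (D (i, j) : ℕ))]
      simp
    rw [h2, ha]
    ring

private theorem len_key {L S : ℕ} [NeZero L] (DA : List (List (ZMod L))) :
    ∑ D : DD L S, (DA.map (key S)).count D = DA.length := by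
  induction DA with
  | nil => simp
  | cons a t ih =>
    simp only [List.map_cons, List.count_cons, Finset.sum_add_distrib, List.length_cons, ih]
    congr 1
    simp only [beq_iff_eq]
    rw [Finset.sum_ite_eq Finset.univ (key S a) (fun _ => (1 : ℕ))]
    simp

theorem enc {L n S : ℕ} [NeZero L] (m p : ZMod L → ℤ) (z : ℕ) (h : SolS L n S m p z) :
    ∃ x : Va L S → ℕ, (∀ e, ∑ v, (lpm L S e v : ℚ) * (x v : ℚ) = 0) ∧ x .n = n ∧
      ∑ D, x (.xa D) + ∑ D, x (.xb D) = z ∧
      (∀ D, x (.xa D) ≠ 0 → ∃ l, Walk m l ∧ ∀ i j, cnt l i j = (D (i, j) : ℕ)) ∧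
      (∀ D, x (.xb D) ≠ 0 → ∃ l, Walk p l ∧ ∀ i j, cnt l i j = (D (i, j) : ℕ)) := by
  obtain ⟨Y, DA, DB, h1, h2, h3, h4, h5, h6, h7⟩ := h
  refine ⟨fun v => match v with
    | .y i j => Y i j
    | .sa i j => Y i j - (DA.map (fun l => cnt l i j)).sum
    | .sb k i => Y i (k + 1) - (DB.map (fun l => cnt l k i)).sum
    | .xa D => (DA.map (key S)).count D
    | .xb D => (DB.map (key S)).count D
    | .n => n, ?_, rfl, ?_, ?_, ?_⟩
  · rw [rows]
    refine ⟨fun i => by exact_mod_cast h1 i, fun j => by exact_mod_cast h2 j, fun i j => ?_,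
      fun k i => ?_⟩
    · have e1 := sum_key (S := S) DA (fun l hl => (h3 l hl).2) i j
      have e2 := h5 i j
      have e3 : (Y i j - (DA.map (fun l => cnt l i j)).sum) +
          ∑ D : DD L S, (D (i, j) : ℕ) * (DA.map (key S)).count D = Y i j := by
        rw [e1]; omega
      exact_mod_cast e3
    · have e1 := sum_key (S := S) DB (fun l hl => (h4 l hl).2) k i
      have e2 := h6 k i
      have e3 : (Y i (k + 1) - (DB.map (fun l => cnt l k i)).sum) +
          ∑ D : DD L S, (D (k, i) : ℕ) * (DB.map (key S)).count D = Y i (k + 1) := by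
        rw [e1]; omega
      exact_mod_cast e3
  · show ∑ D : DD L S, (DA.map (key S)).count D + ∑ D : DD L S, (DB.map (key S)).count D = z
    rw [len_key, len_key, h7]
  · intro D hD
    have h8 : D ∈ DA.map (key S) := List.count_pos_iff.1 (Nat.pos_of_ne_zero hD)
    obtain ⟨l, hl, rfl⟩ := List.mem_map.1 h8
    exact ⟨l, (h3 l hl).1, fun i j => (key_val (h3 l hl).2 i j).symm⟩
  · intro D hD
    have h8 : D ∈ DB.map (key S) := List.count_pos_iff.1 (Nat.pos_of_ne_zero hD)
    obtain ⟨l, hl, rfl⟩ := List.mem_map.1 h8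
    exact ⟨l, (h4 l hl).1, fun i j => (key_val (h4 l hl).2 i j).symm⟩

end Pool.Agent.Lib.MP_3d915a_al.EG
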