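import Pool.Agent.Lib.MP_3d915a_al.SCL.Realize
import Pool.Agent.Lib.MP_3d915a_al.EG.Defs

/-!
# EG-Euler: a balanced matrix with the support of a closed walk is a closed walk

`merge`: let `l = l₁ ++ v :: l₂` and `l' = l₁' ++ v :: l₂'`. The closed walk `(v :: l₂ ++ l₁) ++ (v :: l₂' ++ l₁')` has the
transition numbers `cnt l + cnt l'`. (`cnt (l.rotate k) = cnt l`, and for two lists that begin with the same point `v`:
`cnt ((v :: a) ++ (v :: b)) = cnt (v :: a) + cnt (v :: b)`: write `(v :: a).zip ((v :: a).rotate 1)` as `(v :: a).zip (a ++ [v])`,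
and `(v :: a ++ v :: b).zip (a ++ v :: (b ++ [v]))` splits after `a.length + 1` places: `List.zip_append`.)
`euler`: `walks_of_matrix` (private in SCL.Realize: copy its proof as a private lemma here, it uses `cyc_exists`, `count_cyc`,
`card_sigma_filter`; or make your own) gives a list `W` of closed walks, all `≠ []`, with `∑_{l ∈ W} cnt l i j = D i j`.
Among all such lists take one of minimal length (`Nat.find` / well-founded induction). `W ≠ []` because `l0 ≠ []`, so some `D i j > 0`.
If `W = [l]`: done. Suppose `W = l₁ :: l₂ :: W'`. By minimality and `merge` the vertex sets of the walks of `W` are pairwise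
disjoint (else merge two of them: a permutation of `W` brings the two to the front; it is enough to know that `l₁` is disjoint
from every walk `l' ∈ l₂ :: W'`). Let `T = {i | i ∈ l₁}`. If `D i j > 0` and `i ∈ T` then the transition `(i, j)` occurs in some
walk of `W` that contains `i`: in `l₁`; so `j ∈ T`. So along `l0` (`cnt l0 i j > 0 → D i j > 0`) the set `T` is closed; a vertex `i` of `l₁` has
`D i j > 0` for some `j`, hence `cnt l0 i j > 0`, `i ∈ l0`; going around the closed walk `l0` from `i` (`List.rotate`, induction)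
all vertices of `l0` are in `T`. A vertex `i'` of `l₂` is a vertex of `l0` for the same reason, hence in `T`: contradiction to disjointness.
Useful: `sum_cnt_left : ∑ j, cnt l i j = l.count i`, `sum_cnt_right`.
-/

namespace Pool.Agent.Lib.MP_3d915a_al.EG

open Equiv List

/-- `l` read along its own permutation is the rotated list -/
private theorem map_formPerm {X : Type*} [DecidableEq X] (l : List X) (hl : l.Nodup) :
    l.map l.formPerm = l.rotate 1 := by
  apply List.ext_getElem
  · simp
  · intro n h1 h2
    rw [List.getElem_map, List.formPerm_apply_getElem _ hl, List.getElem_rotate]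

private theorem sum_count_flatten {X κ : Type*} [BEq κ] (f : X → κ) (q : κ)
    (ls : List (List X)) :
    (ls.map (fun l => (l.map f).count q)).sum = (ls.flatten.map f).count q := by
  induction ls with
  | nil => simp
  | cons l t ih =>
    rw [List.map_cons, List.sum_cons, ih, List.flatten_cons, List.map_append, List.count_append]

/-- number of transitions of a permutation, by its cycles -/
private theorem count_cyc {X : Type*} [Fintype X] [DecidableEq X] {L : ℕ} (r : X → ZMod L)
    {ls : List (List X)} {c : Perm X} (h : Cyc ls c) (i j : ZMod L) :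
    (Finset.univ.filter (fun x => r x = i ∧ r (c x) = j)).card =
      (ls.map (fun l => cnt (l.map r) i j)).sum := by
  have hl : ∀ l ∈ ls, cnt (l.map r) i j = (l.map (fun x => (r x, r (c x)))).count (i, j) := by
    intro l hl
    have hn : l.Nodup := (List.nodup_flatten.1 h.nodup).1 l hl
    unfold cnt
    rw [← List.map_rotate, ← map_formPerm l hn, List.map_map, List.zip_map']
    congr 1
    apply List.map_congr_left
    intro x hx
    have := fps_apply_mem ls h.nodup l hl x hx
    rw [h.prod] at this
    simp [this]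
  rw [List.map_congr_left hl, sum_count_flatten]
  have hu : ls.flatten.toFinset = Finset.univ := by
    ext x
    simp only [List.mem_toFinset, Finset.mem_univ, iff_true]
    exact h.cov x
  rw [← hu, List.count_eq_length_filter, List.filter_map, List.length_map]
  rw [← List.toFinset_card_of_nodup (h.nodup.filter _)]
  congr 1
  ext x
  rw [Finset.mem_filter, List.mem_toFinset, List.mem_toFinset, List.mem_filter]
  simp only [Function.comp_def, beq_iff_eq, Prod.mk.injEq]

private theorem card_sigma_filter {κ : Type*} [Fintype κ] (Z : κ → ℕ) (P : κ → Prop)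
    [DecidablePred P] :
    (Finset.univ.filter (fun x : (Σ q : κ, Fin (Z q)) => P x.1)).card =
      ∑ q with P q, Z q := by
  have : (Finset.univ.filter (fun x : (Σ q : κ, Fin (Z q)) => P x.1)) =
      (Finset.univ.filter P).sigma (fun q => (Finset.univ : Finset (Fin (Z q)))) := by
    ext x
    simp
  rw [this, Finset.card_sigma]
  simp

/-- a matrix with equal row and column sums is a sum of closed walks -/
private theorem walks_of_matrix {L : ℕ} [NeZero L] (Z : ZMod L → ZMod L → ℕ)
    (h : ∀ i, ∑ j, Z i j = ∑ j, Z j i) :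
    ∃ WB : List (List (ZMod L)), (∀ l ∈ WB, l ≠ []) ∧
      ∀ i j, (WB.map (fun l => cnt l i j)).sum = Z i j := by
  classical
  let A := Σ q : ZMod L × ZMod L, Fin (Z q.1 q.2)
  have h1 : ∀ k, (Finset.univ.filter (fun a : A => a.1.2 = k)).card =
      (Finset.univ.filter (fun b : A => b.1.1 = k)).card := by
    intro k
    rw [card_sigma_filter (fun q : ZMod L × ZMod L => Z q.1 q.2) (fun q => q.2 = k),
      card_sigma_filter (fun q : ZMod L × ZMod L => Z q.1 q.2) (fun q => q.1 = k),
      Finset.sum_filter, Finset.sum_filter, Fintype.sum_prod_type, Fintype.sum_prod_type_right]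
    simp only [Finset.sum_ite_eq', Finset.mem_univ, if_true]
    exact (h k).symm
  obtain ⟨e, he⟩ := exists_equiv_of_fibers (fun a : A => a.1.2) (fun b : A => b.1.1) h1
  obtain ⟨ls, hls⟩ := cyc_exists (X := A) e
  refine ⟨ls.map (List.map (fun a : A => a.1.1)), ?_, ?_⟩
  · intro l hl
    rw [List.mem_map] at hl
    obtain ⟨l', hl', rfl⟩ := hl
    intro h0
    exact hls.ne l' hl' (List.map_eq_nil_iff.1 h0)
  · intro i j
    rw [List.map_map]
    have := count_cyc (fun a : A => a.1.1) hls i j
    rw [show ((fun l => cnt l i j) ∘ List.map (fun a : A => a.1.1)) =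
      (fun l => cnt (l.map (fun a : A => a.1.1)) i j) from rfl, ← this]
    have h2 : (Finset.univ.filter (fun x : A => x.1.1 = i ∧ (e x).1.1 = j)) =
        (Finset.univ.filter (fun x : A => x.1 = (i, j))) := by
      ext x
      simp only [Finset.mem_filter, Finset.mem_univ, true_and]
      rw [show (e x).1.1 = x.1.2 from he x, Prod.ext_iff]
    rw [h2, card_sigma_filter (fun q : ZMod L × ZMod L => Z q.1 q.2) (fun q => q = (i, j)),
      Finset.filter_eq']
    simp


private theorem cnt_rot {L : ℕ} (l : List (ZMod L)) (k : ℕ) (i j : ZMod L) :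
    cnt (l.rotate k) i j = cnt l i j := by
  unfold cnt
  rw [List.rotate_rotate, Nat.add_comm k 1, ← List.rotate_rotate]
  have h := List.zipWith_rotate_distrib Prod.mk l (l.rotate 1) k (by simp)
  show (List.zipWith Prod.mk (l.rotate k) ((l.rotate 1).rotate k)).count (i, j) =
    (List.zipWith Prod.mk l (l.rotate 1)).count (i, j)
  rw [← h]
  exact (List.rotate_perm _ k).count_eq _

private theorem cnt_join {L : ℕ} (v : ZMod L) (a b : List (ZMod L)) (i j : ZMod L) :
    cnt ((v :: a) ++ (v :: b)) i j = cnt (v :: a) i j + cnt (v :: b) i j := by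
  have h1 : ((v :: a) ++ (v :: b)).rotate 1 = (a ++ [v]) ++ (b ++ [v]) := by
    simp [List.rotate_cons_succ]
  have h2 : (v :: a).rotate 1 = a ++ [v] := by simp [List.rotate_cons_succ]
  have h3 : (v :: b).rotate 1 = b ++ [v] := by simp [List.rotate_cons_succ]
  unfold cnt
  rw [h1, h2, h3, List.zip_append (by simp), List.count_append]

private theorem rot_of_mem {L : ℕ} {v : ZMod L} {l : List (ZMod L)} (h : v ∈ l) :
    ∃ a, (∀ i j, cnt (v :: a) i j = cnt l i j) ∧ ∀ x, x ∈ l ↔ x ∈ v :: a := by
  obtain ⟨s, t, rfl⟩ := List.append_of_mem h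
  have h1 : (s ++ v :: t).rotate s.length = v :: (t ++ s) := by
    rw [List.rotate_append_length_eq]
    rfl
  refine ⟨t ++ s, fun i j => ?_, fun x => ?_⟩
  · rw [← h1, cnt_rot]
  · rw [← h1, List.mem_rotate]

private theorem merge {L : ℕ} {v : ZMod L} {l l' : List (ZMod L)} (h : v ∈ l) (h' : v ∈ l') :
    ∃ w : List (ZMod L), w ≠ [] ∧ ∀ i j, cnt w i j = cnt l i j + cnt l' i j := by
  obtain ⟨a, ha, -⟩ := rot_of_mem h
  obtain ⟨b, hb, -⟩ := rot_of_mem h'
  refine ⟨(v :: a) ++ (v :: b), by simp, fun i j => ?_⟩
  rw [cnt_join, ha, hb]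

private theorem mem_of_cnt {L : ℕ} {l : List (ZMod L)} {i j : ZMod L} (h : 0 < cnt l i j) :
    i ∈ l ∧ j ∈ l := by
  unfold cnt at h
  have h1 := List.count_pos_iff.1 h
  exact ⟨(List.of_mem_zip h1).1, List.mem_rotate.1 (List.of_mem_zip h1).2⟩

private theorem cnt_of_mem {L : ℕ} [NeZero L] {l : List (ZMod L)} {i : ZMod L} (h : i ∈ l) :
    ∃ j, 0 < cnt l i j := by
  by_contra hc
  push Not at hc
  have h1 : ∑ j, cnt l i j = 0 := Finset.sum_eq_zero fun j _ => Nat.le_zero.1 (hc j)
  rw [sum_cnt_left] at h1
  exact absurd (List.count_pos_iff.2 h) (by omega)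

private theorem closed_aux {L : ℕ} (T : ZMod L → Prop) (z : ZMod L) : ∀ (t : List (ZMod L))
    (i : ZMod L), (∀ a b, (a, b) ∈ (i :: t).zip (t ++ [z]) → T a → T b) → T i → ∀ x ∈ t, T x := by
  intro t
  induction t with
  | nil => simp
  | cons b t ih =>
    intro i h hi x hx
    have e : (i :: b :: t).zip (b :: t ++ [z]) = (i, b) :: (b :: t).zip (t ++ [z]) := rfl
    have hb : T b := h i b (by rw [e]; simp) hi
    rcases List.mem_cons.1 hx with rfl | hx
    · exact hb
    · exact ih b (fun a c hac => h a c (by rw [e]; exact List.mem_cons_of_mem _ hac)) hb x hx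

theorem euler {L : ℕ} [NeZero L] (l0 : List (ZMod L)) (h0 : l0 ≠ []) (D : ZMod L → ZMod L → ℕ)
    (hb : ∀ i, ∑ j, D i j = ∑ j, D j i) (hs : ∀ i j, 0 < D i j ↔ 0 < cnt l0 i j) :
    ∃ l : List (ZMod L), l ≠ [] ∧ ∀ i j, cnt l i j = D i j := by
  classical
  have hex : ∃ k : ℕ, ∃ W : List (List (ZMod L)), W.length = k ∧ (∀ l ∈ W, l ≠ []) ∧
      ∀ i j, (W.map (fun l => cnt l i j)).sum = D i j := by
    obtain ⟨W, h1, h2⟩ := walks_of_matrix D hb
    exact ⟨W.length, W, rfl, h1, h2⟩
  obtain ⟨W, hWl, hW1, hW2⟩ := Nat.find_spec hex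
  have hmin : ∀ W' : List (List (ZMod L)), (∀ l ∈ W', l ≠ []) →
      (∀ i j, (W'.map (fun l => cnt l i j)).sum = D i j) → W.length ≤ W'.length := by
    intro W' h1 h2
    rw [hWl]
    exact Nat.find_min' hex ⟨W', rfl, h1, h2⟩
  have hpos : ∀ l ∈ W, ∀ i j, 0 < cnt l i j → 0 < D i j := by
    intro l hl i j h
    rw [← hW2 i j]
    exact lt_of_lt_of_le h (List.le_sum_of_mem (List.mem_map_of_mem (f := fun l => cnt l i j) hl))
  match W, hW1, hW2, hmin, hpos with
  | [], hW1, hW2, hmin, hpos =>
    exfalso
    obtain ⟨v, t, rfl⟩ := List.exists_cons_of_ne_nil h0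
    obtain ⟨j, hj⟩ := cnt_of_mem (l := v :: t) (i := v) (by simp)
    have h1 := (hs v j).2 hj
    have h2 := hW2 v j
    simp at h2
    omega
  | [l], hW1, hW2, hmin, hpos =>
    refine ⟨l, hW1 l (by simp), fun i j => ?_⟩
    have := hW2 i j
    simpa using this
  | l₁ :: l₂ :: W', hW1, hW2, hmin, hpos =>
    exfalso
    have hdis : ∀ l' ∈ l₂ :: W', ∀ v ∈ l₁, v ∉ l' := by
      intro l' hl' v hv hv'
      obtain ⟨w, hw0, hw⟩ := merge hv hv'
      have hp : List.Perm (l₂ :: W') (l' :: (l₂ :: W').erase l') := List.perm_cons_erase hl'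
      have hm := hmin (w :: (l₂ :: W').erase l') (by
        intro l hl
        rcases List.mem_cons.1 hl with rfl | hl
        · exact hw0
        · exact hW1 l (List.mem_cons_of_mem _ (List.mem_of_mem_erase hl))) (by
        intro i j
        rw [← hW2 i j, List.map_cons, List.sum_cons, List.map_cons, List.sum_cons,
          (hp.map (fun l => cnt l i j)).sum_eq, List.map_cons, List.sum_cons, hw i j]
        ring)
      have hl : (l₂ :: W').length = ((l₂ :: W').erase l').length + 1 := by
        have := hp.length_eq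
        simpa using this
      simp only [List.length_cons] at hm hl
      omega
    have hcl : ∀ i j, 0 < D i j → i ∈ l₁ → j ∈ l₁ := by
      intro i j hD hi
      rw [← hW2 i j] at hD
      have : ∃ l ∈ l₁ :: l₂ :: W', 0 < cnt l i j := by
        by_contra hc
        push Not at hc
        have h1 : ((l₁ :: l₂ :: W').map (fun l => cnt l i j)).sum = 0 := by
          apply List.sum_eq_zero
          intro x hx
          obtain ⟨l, hl, rfl⟩ := List.mem_map.1 hx
          exact Nat.le_zero.1 (hc l hl)
        omega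
      obtain ⟨l, hl, hlc⟩ := this
      rcases List.mem_cons.1 hl with rfl | hl
      · exact (mem_of_cnt hlc).2
      · exact absurd (mem_of_cnt hlc).1 (hdis l hl i hi)
    have hin : ∀ l ∈ l₁ :: l₂ :: W', ∀ i ∈ l, i ∈ l0 := by
      intro l hl i hi
      obtain ⟨j, hj⟩ := cnt_of_mem hi
      exact (mem_of_cnt ((hs i j).1 (hpos l hl i j hj))).1
    obtain ⟨i, hi⟩ := List.exists_mem_of_ne_nil l₁ (hW1 l₁ (by simp))
    obtain ⟨t, ht1, ht2⟩ := rot_of_mem (hin l₁ (by simp) i hi)
    have hall : ∀ x ∈ t, x ∈ l₁ := by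
      refine closed_aux (fun x => x ∈ l₁) i t i (fun a b hab ha => ?_) hi
      refine hcl a b ((hs a b).2 ?_) ha
      rw [← ht1 a b]
      unfold cnt
      have h2 : (i :: t).rotate 1 = t ++ [i] := by simp [List.rotate_cons_succ]
      rw [h2]
      exact List.count_pos_iff.2 hab
    obtain ⟨i', hi'⟩ := List.exists_mem_of_ne_nil l₂ (hW1 l₂ (by simp))
    have h3 : i' ∈ i :: t := (ht2 i').1 (hin l₂ (by simp) i' hi')
    have h4 : i' ∈ l₁ := by
      rcases List.mem_cons.1 h3 with rfl | h3
      · exact hi
      · exact hall i' h3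
    exact hdis l₂ (by simp) i' h4 hi'

end Pool.Agent.Lib.MP_3d915a_al.EG
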