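import Pool.Agent.Lib.MP_3d915a_al.EG.Enc
import Pool.Agent.Lib.MP_3d915a_al.EG.Dec
import Pool.Agent.Lib.MP_3d915a_al.EG.Cone

/-!
# EG-LP: a solution with many discs per size gives a small one

`enc` gives `x`. `cone` for `A = lpm L S`, `M = S` (`lpm_abs`), `card_va`, `card_eqn`: a list `l` with entries `≤ LB L S`.
The functional `f v = 1` for `v = .xa D, .xb D`, `-c` for `v = .n`, `0` otherwise has `∑ v, f v * x v = z - c n > 0` (`sum_va`). `cone_pos` gives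
`q ∈ l` with `∑ v, f v * q.2 v > 0`, that is `c * n' < z'` for `n' = q.2 .n`, `z' = ∑ D, q.2 (.xa D) + ∑ D, q.2 (.xb D)`. By `cone_supp`
`q.2 (.xa D) ≠ 0` implies `x (.xa D) ≠ 0`, so `dec` gives `Sol L n' m p z'`. If `n' = 0` then `z' = 0` by `sol_zero`: contradiction.
-/

namespace Pool.Agent.Lib.MP_3d915a_al.EG

/-- the functional `discs - c * size` -/
private def fn {L S : ℕ} (c : ℚ) : Va L S → ℚ
  | .xa _ => 1
  | .xb _ => 1
  | .n => -c
  | _ => 0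

private theorem sum_fn {L S : ℕ} [NeZero L] (c : ℚ) (w : Va L S → ℚ) :
    ∑ v, fn c v * w v = ∑ D, w (.xa D) + ∑ D, w (.xb D) - c * w .n := by
  rw [sum_va]
  simp only [fn, zero_mul, one_mul, Finset.sum_const_zero, zero_add]
  ring

theorem lp {L n S : ℕ} [NeZero L] (hS : 1 ≤ S) (m p : ZMod L → ℤ) (z : ℕ)
    (h : SolS L n S m p z) (c : ℚ) (hc : c * n < z) :
    ∃ n' z' : ℕ, 1 ≤ n' ∧ n' ≤ LB L S ∧ Sol L n' m p z' ∧ c * n' < z' := by
  obtain ⟨x, hx, hn, hz, hA, hB⟩ := enc m p z h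
  obtain ⟨l, -, hl, hsum⟩ := cone (lpm L S) S hS (lpm_abs hS) (fun j => (x j : ℚ))
    (fun j => Nat.cast_nonneg _) hx
  have hz' : (∑ D, (x (.xa D) : ℚ)) + ∑ D, (x (.xb D) : ℚ) = z := by
    rw [← hz]
    push_cast
    rfl
  have hpos : 0 < ∑ j, fn c j * (x j : ℚ) := by
    rw [sum_fn c (fun j => (x j : ℚ)), hz', hn]
    linarith
  obtain ⟨q, hq, hqpos⟩ := cone_pos (fun q hq => (hl q hq).1) hsum (fn c) hpos
  obtain ⟨-, hq2, hq3⟩ := hl q hq
  rw [sum_fn c (fun j => (q.2 j : ℚ))] at hqpos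
  have hsup : ∀ j, x j = 0 → q.2 j = 0 := fun j hj =>
    cone_supp (fun q hq => (hl q hq).1) hsum (by simp [hj]) q hq
  have hsol : Sol L (q.2 .n) m p (∑ D, q.2 (.xa D) + ∑ D, q.2 (.xb D)) := by
    refine dec m p q.2 hq2 (fun D hD => hA D fun h0 => hD (hsup _ h0))
      (fun D hD => hB D fun h0 => hD (hsup _ h0))
  have hlt : c * (q.2 .n : ℕ) < ((∑ D, q.2 (.xa D) + ∑ D, q.2 (.xb D) : ℕ) : ℚ) := by
    push_cast
    linarith
  refine ⟨q.2 .n, ∑ D, q.2 (.xa D) + ∑ D, q.2 (.xb D), ?_, ?_, hsol, hlt⟩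
  · rcases Nat.eq_zero_or_pos (q.2 .n) with h0 | h0
    · exfalso
      rw [h0] at hsol hlt
      rw [sol_zero m p hsol] at hlt
      simp at hlt
    · exact h0
  · have h1 := hq3 .n
    rw [card_va, card_eqn] at h1
    exact h1

end Pool.Agent.Lib.MP_3d915a_al.EG
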