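import Pool.Agent.Lib.MP_3d915a_al.EG.Defs

/-!
# EG-Num: the size of the constants

`L ≥ 1`, `Q ≥ 1`. Write `X i = 12 L^2 Q * MM L Q i` (`X i ≥ 12`).
* `SB L M ≤ (3 L^2 M)^(2L+2)`: `L^2 + 2L ≤ 3 L^2`, so `SB L M ≤ 3L^2 * L^2 * (3L^2 M)^(2L) ≤ (3L^2M)^(2L+2)` for `M ≥ 1`.
* with `T = SB L M + 1`, `T ≤ (3 L^2 M)^(2L+3)` (because `3L^2M ≥ 3`, `a^k + 1 ≤ a^(k+1)` for `a ≥ 2`), `T ≥ 3 L^2 + 1`
  and `T ≥ 3`: `(3L^2+1+2 T^(L^2)) * S ≤ 3 T^(L^2) * T ≤ T^(L^2+2)`, so `LB L (SB L M) ≤ T^((L^2+2)(2L^2+2L)) ≤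
  (3L^2M)^((2L+3)(L^2+2)(2L^2+2L)) ≤ (3L^2M)^(60 L^5)` (`2L+3 ≤ 5L`, `L^2+2 ≤ 3L^2`, `2L^2+2L ≤ 4L^2`).
* `MM (i+1) = 4LQ * LB .. ≤ 12L^2Q * X_i^(60 L^5)`, so `X (i+1) ≤ X_i^(60 L^5 + 2) ≤ X_i^(62 L^5)`, `X i ≤ (12L^2Q)^((62 L^5)^i)` by induction.
* `MM L Q (2L+1) + 1 ≤ X (2L+1) ≤ (12 L^2 Q)^((62 L^5)^(2L+1))`; for `L ≥ 2`: `12 L^2 ≤ (4 L)^2`, `62 L^5 ≤ (3 L)^5`, so the
  exponent is at most `(3L)^(10 L + 5)`, and `(12 L^2 Q)^e ≤ (4LQ)^(2 e)`, `2 (3L)^(10L+5) ≤ (4L)^(15L)`.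
(For `L ≥ 2`, `10 L + 5 ≤ 15 L - ...`; only the final inequality matters, choose your own way.)
`LB_pos`: `LB L S ≥ 1`, `MM_pos`: positivity; `MM_mono`: `MM L Q i ≤ MM L Q (i+1)` (`M ≤ SB L M ≤ LB L (SB L M)` for `M ≥ 1`, `L ≥ 1`).
-/

namespace Pool.Agent.Lib.MP_3d915a_al.EG

theorem sb_pos {L M : ℕ} (hL : 1 ≤ L) (hM : 1 ≤ M) : 1 ≤ SB L M := by
  unfold SB
  have : 0 < (L ^ 2 + 2 * L) * L ^ 2 * ((L ^ 2 + 2 * L) * M) ^ (2 * L) := by positivity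
  exact this

private theorem lb_pos {L S : ℕ} (hL : 1 ≤ L) (hS : 1 ≤ S) : 1 ≤ LB L S := by
  unfold LB
  have : 0 < ((3 * L ^ 2 + 1 + 2 * (S + 1) ^ (L ^ 2)) * S) ^ (2 * L ^ 2 + 2 * L) := by positivity
  exact this

theorem mm_pos {L Q : ℕ} (hL : 1 ≤ L) (hQ : 1 ≤ Q) (i : ℕ) : 1 ≤ MM L Q i := by
  induction i with
  | zero => exact le_rfl
  | succ i ih =>
    have h1 := lb_pos hL (sb_pos hL ih)
    have : 0 < 4 * L * Q * LB L (SB L (MM L Q i)) := by positivity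
    exact this

private theorem le_sb {L M : ℕ} (hL : 1 ≤ L) (hM : 1 ≤ M) : 3 * L ^ 2 * M ≤ SB L M := by
  unfold SB
  have h1 : 3 ≤ L ^ 2 + 2 * L := by nlinarith
  have h2 : M ≤ ((L ^ 2 + 2 * L) * M) ^ (2 * L) := by
    calc M ≤ (L ^ 2 + 2 * L) * M := Nat.le_mul_of_pos_left M (by omega)
      _ ≤ ((L ^ 2 + 2 * L) * M) ^ (2 * L) := Nat.le_self_pow (by omega) _
  exact Nat.mul_le_mul (Nat.mul_le_mul_right _ h1) h2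

private theorem le_lb {L S : ℕ} (hL : 1 ≤ L) : S ≤ LB L S := by
  unfold LB
  calc S ≤ (3 * L ^ 2 + 1 + 2 * (S + 1) ^ (L ^ 2)) * S := Nat.le_mul_of_pos_left S (by positivity)
    _ ≤ _ := Nat.le_self_pow (by positivity) _

theorem mm_mono {L Q : ℕ} (hL : 1 ≤ L) (hQ : 1 ≤ Q) : Monotone (MM L Q) := by
  apply monotone_nat_of_le_succ
  intro i
  have h0 := mm_pos hL hQ i
  have h1 := le_sb hL h0
  have h2 : SB L (MM L Q i) ≤ LB L (SB L (MM L Q i)) := le_lb hL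
  have h3 : LB L (SB L (MM L Q i)) ≤ 4 * L * Q * LB L (SB L (MM L Q i)) :=
    Nat.le_mul_of_pos_left _ (by positivity)
  have h4 : MM L Q i ≤ 3 * L ^ 2 * MM L Q i := Nat.le_mul_of_pos_left _ (by positivity)
  exact (h4.trans h1).trans (h2.trans h3)

private theorem sb_le {L M : ℕ} (hL : 1 ≤ L) (hM : 1 ≤ M) :
    SB L M ≤ (3 * L ^ 2 * M) ^ (2 * L + 2) := by
  unfold SB
  have h1 : L ^ 2 + 2 * L ≤ 3 * L ^ 2 := by nlinarith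
  have h2 : L ^ 2 + 2 * L ≤ 3 * L ^ 2 * M := h1.trans (Nat.le_mul_of_pos_right _ hM)
  have h3 : L ^ 2 ≤ 3 * L ^ 2 * M := by nlinarith [Nat.le_mul_of_pos_right (L ^ 2) hM]
  have h4 : (L ^ 2 + 2 * L) * M ≤ 3 * L ^ 2 * M := Nat.mul_le_mul_right _ h1
  calc (L ^ 2 + 2 * L) * L ^ 2 * ((L ^ 2 + 2 * L) * M) ^ (2 * L)
      ≤ (3 * L ^ 2 * M) * (3 * L ^ 2 * M) * (3 * L ^ 2 * M) ^ (2 * L) :=
        Nat.mul_le_mul (Nat.mul_le_mul h2 h3) (Nat.pow_le_pow_left h4 _)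
    _ = (3 * L ^ 2 * M) ^ (2 * L + 2) := by ring

private theorem lb_le {L M : ℕ} (hL : 1 ≤ L) (hM : 1 ≤ M) :
    LB L (SB L M) ≤ (3 * L ^ 2 * M) ^ (60 * L ^ 5) := by
  obtain ⟨a, ha⟩ : ∃ a, a = 3 * L ^ 2 * M := ⟨_, rfl⟩
  obtain ⟨S, hS⟩ : ∃ S, S = SB L M := ⟨_, rfl⟩
  have hLM : 1 ≤ L ^ 2 * M := Nat.mul_pos (by positivity) hM
  have ha3 : 3 ≤ a := by rw [ha]; nlinarith
  have h1 := sb_le hL hM
  have h2 := le_sb hL hM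
  rw [← ha, ← hS] at h1 h2
  rw [← ha, ← hS]
  have hL2 : L ^ 2 ≤ L ^ 2 * M := Nat.le_mul_of_pos_right _ hM
  have h3 : 3 * L ^ 2 + 1 ≤ S + 1 := by rw [ha] at h2; nlinarith
  have hT : S + 1 ≤ a ^ (2 * L + 3) := by
    have h5 : 1 ≤ a ^ (2 * L + 2) := Nat.one_le_pow _ _ (by omega)
    calc S + 1 ≤ a ^ (2 * L + 2) + a ^ (2 * L + 2) := by omega
      _ = 2 * a ^ (2 * L + 2) := by ring
      _ ≤ a * a ^ (2 * L + 2) := Nat.mul_le_mul_right _ (by omega)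
      _ = a ^ (2 * L + 3) := by ring
  unfold LB
  have h6 : (3 * L ^ 2 + 1 + 2 * (S + 1) ^ (L ^ 2)) * S ≤ (S + 1) ^ (L ^ 2 + 2) := by
    have h7 : S + 1 ≤ (S + 1) ^ (L ^ 2) := Nat.le_self_pow (by positivity) _
    calc (3 * L ^ 2 + 1 + 2 * (S + 1) ^ (L ^ 2)) * S
        ≤ ((S + 1) ^ (L ^ 2) + 2 * (S + 1) ^ (L ^ 2)) * (S + 1) :=
          Nat.mul_le_mul (Nat.add_le_add_right (h3.trans h7) _) (Nat.le_succ _)
      _ = 3 * ((S + 1) ^ (L ^ 2) * (S + 1)) := by ring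
      _ ≤ (S + 1) * ((S + 1) ^ (L ^ 2) * (S + 1)) := Nat.mul_le_mul_right _ (by omega)
      _ = (S + 1) ^ (L ^ 2 + 2) := by ring
  calc ((3 * L ^ 2 + 1 + 2 * (S + 1) ^ (L ^ 2)) * S) ^ (2 * L ^ 2 + 2 * L)
      ≤ ((S + 1) ^ (L ^ 2 + 2)) ^ (2 * L ^ 2 + 2 * L) := Nat.pow_le_pow_left h6 _
    _ ≤ ((a ^ (2 * L + 3)) ^ (L ^ 2 + 2)) ^ (2 * L ^ 2 + 2 * L) :=
        Nat.pow_le_pow_left (Nat.pow_le_pow_left hT _) _
    _ = a ^ ((2 * L + 3) * (L ^ 2 + 2) * (2 * L ^ 2 + 2 * L)) := by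
        rw [← pow_mul, ← pow_mul, mul_assoc]
    _ ≤ a ^ (60 * L ^ 5) := by
        apply Nat.pow_le_pow_right (by omega)
        calc (2 * L + 3) * (L ^ 2 + 2) * (2 * L ^ 2 + 2 * L)
            ≤ (5 * L) * (3 * L ^ 2) * (4 * L ^ 2) :=
              Nat.mul_le_mul (Nat.mul_le_mul (by omega) (by nlinarith)) (by nlinarith)
          _ = 60 * L ^ 5 := by ring

private theorem x_le {L Q : ℕ} (hL : 1 ≤ L) (hQ : 1 ≤ Q) (i : ℕ) :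
    12 * L ^ 2 * Q * MM L Q i ≤ (12 * L ^ 2 * Q) ^ (62 * L ^ 5) ^ i := by
  induction i with
  | zero => simp [MM]
  | succ i ih =>
    obtain ⟨X, hX⟩ : ∃ X, X = 12 * L ^ 2 * Q * MM L Q i := ⟨_, rfl⟩
    have h0 := mm_pos hL hQ i
    have h1 := lb_le hL h0
    have hLL : L ≤ L ^ 2 := Nat.le_self_pow (by norm_num) _
    have hc : 12 * L ^ 2 * Q ≤ X := by rw [hX]; exact Nat.le_mul_of_pos_right _ h0
    have hd : 4 * L * Q ≤ X := by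
      refine le_trans ?_ hc
      exact Nat.mul_le_mul_right _ (by nlinarith)
    have ha : 3 * L ^ 2 * MM L Q i ≤ X := by
      rw [hX]
      have h5 : 3 * L ^ 2 ≤ 12 * L ^ 2 * Q := by
        calc 3 * L ^ 2 ≤ 12 * L ^ 2 := Nat.mul_le_mul_right _ (by norm_num)
          _ ≤ 12 * L ^ 2 * Q := Nat.le_mul_of_pos_right _ hQ
      exact Nat.mul_le_mul_right _ h5
    have hX1 : 1 ≤ X := le_trans (Nat.mul_pos (by positivity) hQ) hc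
    have h5 : 1 ≤ L ^ 5 := Nat.one_le_pow _ _ hL
    calc 12 * L ^ 2 * Q * MM L Q (i + 1)
        = 12 * L ^ 2 * Q * (4 * L * Q * LB L (SB L (MM L Q i))) := rfl
      _ ≤ X * (X * X ^ (60 * L ^ 5)) :=
          Nat.mul_le_mul hc (Nat.mul_le_mul hd (h1.trans (Nat.pow_le_pow_left ha _)))
      _ = X ^ (60 * L ^ 5 + 2) := by ring
      _ ≤ X ^ (62 * L ^ 5) := Nat.pow_le_pow_right hX1 (by omega)
      _ ≤ ((12 * L ^ 2 * Q) ^ (62 * L ^ 5) ^ i) ^ (62 * L ^ 5) := by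
          rw [hX]
          exact Nat.pow_le_pow_left ih _
      _ = (12 * L ^ 2 * Q) ^ (62 * L ^ 5) ^ (i + 1) := by
          rw [← pow_mul, pow_succ (62 * L ^ 5) i]

theorem mm_le {L Q : ℕ} (hL : 2 ≤ L) (hQ : 1 ≤ Q) :
    MM L Q (2 * L + 1) + 1 ≤ (4 * L * Q) ^ (4 * L) ^ (15 * L) := by
  have hL1 : 1 ≤ L := by omega
  have h0 := mm_pos hL1 hQ (2 * L + 1)
  have h1 := x_le hL1 hQ (2 * L + 1)
  have h2 : 2 ≤ 12 * L ^ 2 * Q := by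
    have : 1 ≤ L ^ 2 * Q := Nat.mul_pos (by positivity) hQ
    nlinarith
  have h3 : MM L Q (2 * L + 1) + 1 ≤ 12 * L ^ 2 * Q * MM L Q (2 * L + 1) := by nlinarith
  have hb : 1 ≤ 4 * L * Q := Nat.mul_pos (by omega) hQ
  have h4 : 12 * L ^ 2 * Q ≤ (4 * L * Q) ^ 2 := by
    have h5 : Q ≤ Q ^ 2 := Nat.le_self_pow (by norm_num) _
    calc 12 * L ^ 2 * Q ≤ 16 * L ^ 2 * Q ^ 2 :=
          Nat.mul_le_mul (Nat.mul_le_mul_right _ (by norm_num)) h5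
      _ = (4 * L * Q) ^ 2 := by ring
  refine h3.trans (h1.trans ?_)
  calc (12 * L ^ 2 * Q) ^ (62 * L ^ 5) ^ (2 * L + 1)
      ≤ ((4 * L * Q) ^ 2) ^ (62 * L ^ 5) ^ (2 * L + 1) := Nat.pow_le_pow_left h4 _
    _ = (4 * L * Q) ^ (2 * (62 * L ^ 5) ^ (2 * L + 1)) := by rw [← pow_mul]
    _ ≤ (4 * L * Q) ^ (4 * L) ^ (15 * L) := by
        apply Nat.pow_le_pow_right hb
        calc 2 * (62 * L ^ 5) ^ (2 * L + 1) ≤ 2 * (2 ^ 6 * L ^ 5) ^ (2 * L + 1) :=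
              Nat.mul_le_mul_left _ (Nat.pow_le_pow_left (Nat.mul_le_mul_right _ (by norm_num)) _)
          _ = 2 ^ (6 * (2 * L + 1) + 1) * L ^ (5 * (2 * L + 1)) := by
              rw [mul_pow, ← pow_mul, ← pow_mul, pow_succ 2 (6 * (2 * L + 1))]
              ring
          _ ≤ 2 ^ (2 * (15 * L)) * L ^ (15 * L) :=
              Nat.mul_le_mul (Nat.pow_le_pow_right (by norm_num) (by omega))
                (Nat.pow_le_pow_right hL1 (by omega))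
          _ = (4 * L) ^ (15 * L) := by rw [mul_pow, pow_mul]; norm_num

end Pool.Agent.Lib.MP_3d915a_al.EG
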