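import Pool.Agent.Lib.MP_3d915a_al.EG.Defs

/-!
# EG-Scale: a scale at which nothing changes

`VS m M ≤ VS m M'` for `M ≤ M'` (`Submodule.span_mono`). `finrank (VS m M) ≤ L` (`Submodule.finrank_le`,
`Module.finrank_fintype_fun_eq_card`, `ZMod.card`). If for every `i ≤ 2L` one of the two equalities fails, then
`g i = finrank (VS m (f i)) + finrank (VS p (f i))` satisfies `g i < g (i + 1)` for `i ≤ 2L` (`Submodule.finrank_lt_finrank_of_lt`,
`Submodule.finrank_mono`), so `2L + 1 ≤ g (2L + 1) ≤ 2L`. Contradiction.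
-/

namespace Pool.Agent.Lib.MP_3d915a_al.EG

theorem vs_mono {L : ℕ} (m : ZMod L → ℤ) {M M' : ℕ} (h : M ≤ M') : VS m M ≤ VS m M' := by
  apply Submodule.span_mono
  rintro v ⟨l, hl, hM, hv⟩
  exact ⟨l, hl, hM.trans h, hv⟩

private theorem vs_rank {L : ℕ} [NeZero L] (m : ZMod L → ℤ) (M : ℕ) :
    Module.finrank ℚ (VS m M) ≤ L := by
  have h := Submodule.finrank_le (VS m M)
  rwa [Module.finrank_fintype_fun_eq_card, ZMod.card] at h

private theorem rank_le {L : ℕ} [NeZero L] (m : ZMod L → ℤ) {M M' : ℕ} (h : M ≤ M') :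
    Module.finrank ℚ (VS m M) ≤ Module.finrank ℚ (VS m M') :=
  Submodule.finrank_mono (vs_mono m h)

private theorem rank_lt {L : ℕ} [NeZero L] (m : ZMod L → ℤ) {M M' : ℕ} (h : M ≤ M')
    (hne : VS m M' ≠ VS m M) :
    Module.finrank ℚ (VS m M) < Module.finrank ℚ (VS m M') :=
  Submodule.finrank_lt_finrank_of_lt (lt_of_le_of_ne (vs_mono m h) hne.symm)

theorem scale {L : ℕ} [NeZero L] (m p : ZMod L → ℤ) (f : ℕ → ℕ) (hf : Monotone f) :
    ∃ i ≤ 2 * L, VS m (f (i + 1)) = VS m (f i) ∧ VS p (f (i + 1)) = VS p (f i) := by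
  by_contra hcon
  push Not at hcon
  have key : ∀ i, i ≤ 2 * L + 1 →
      i ≤ Module.finrank ℚ (VS m (f i)) + Module.finrank ℚ (VS p (f i)) := by
    intro i
    induction i with
    | zero => intro _; omega
    | succ i ih =>
      intro hi
      have h1 := ih (by omega)
      have hff : f i ≤ f (i + 1) := hf (Nat.le_succ i)
      by_cases hm : VS m (f (i + 1)) = VS m (f i)
      · have h2 := rank_lt p hff (hcon i (by omega) hm)
        have h3 := rank_le m hff
        omega
      · have h2 := rank_lt m hff hm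
        have h3 := rank_le p hff
        omega
  have h := key (2 * L + 1) le_rfl
  have h1 := vs_rank m (f (2 * L + 1))
  have h2 := vs_rank p (f (2 * L + 1))
  omega

end Pool.Agent.Lib.MP_3d915a_al.EG
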