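import Pool.Agent.Lib.MP_3d915a_al.EG.SmallEq
import Pool.Agent.Lib.MP_3d915a_al.EG.Euler

/-!
# EG-Small: a closed walk with visits in `VS m M` dominates a short walk

Among the lists `l₁ ≠ []` with `cnt l₁ ≤ cnt l` and `vis l₁ ∈ VS m M` take one of minimal length (strong induction on the length
is fine too). It is a walk for `m`: `∑ i, m i * l₁.count i = 0` because `m` vanishes on `VS m M` (`basis`: `vis l₁ i = ∑ k, c k * r k i`,
`∑ i, m i * r k i = 0`; `sum_mul_count`).
Suppose `SB L M < l₁.length`. `small_eq` for `D = cnt l₁` (balanced, row sums `l₁.count i = vis l₁ i`: `sum_cnt_left`, `sum_cnt_right`)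
gives a list `lq`. `l₁.length = ∑ i, ∑ j, cnt l₁ i j` (`sum_cnt` in SCL.Dickson or from `sum_cnt_left`) `= ∑_q q.1 * ∑ i, ∑ j, q.2 i j`.
If every `q ∈ lq` with `q.2 ≠ 0` had `q.1 ≤ 1` this would be at most `lq.length * (L^2 * ((L^2+2L) M)^(2L)) ≤ SB L M`. So some `q ∈ lq` has
`q.1 > 1` and `q.2 ≠ 0`. Put `E i j = cnt l₁ i j - q.2 i j`. It is `≥ 0`, with the same support as `cnt l₁`: `lq = s ++ q :: t`
(`List.append_of_mem`), `cnt l₁ i j - q.2 i j = (q.1 - 1) q.2 i j + (sum of the non-negative terms of s and t)`; if this is zero then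
`q.2 i j = 0` and the other terms vanish, so `cnt l₁ i j = 0`. `E` is balanced and its row sums are in `VS m M` (`Submodule.sub_mem`).
`euler l₁ E`: a list `l₂ ≠ []` with `cnt l₂ = E ≤ cnt l₁`, `vis l₂ ∈ VS m M`, and `l₂.length = l₁.length - ∑ q.2 < l₁.length`. Contradiction.
-/

namespace Pool.Agent.Lib.MP_3d915a_al.EG

private theorem small_cnt {L : ℕ} [NeZero L] (l : List (ZMod L)) :
    ∑ i, ∑ j, cnt l i j = l.length := by
  have h1 : ∀ i, ∑ j, cnt l i j = (l : Multiset (ZMod L)).count i := fun i => by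
    rw [sum_cnt_left, Multiset.coe_count]
  rw [Finset.sum_congr rfl fun i _ => h1 i,
    Multiset.sum_count_eq_card fun a _ => Finset.mem_univ a, Multiset.coe_card]

private theorem small_walk {L : ℕ} [NeZero L] (m : ZMod L → ℤ) (M : ℕ) (l : List (ZMod L))
    (hl : l ≠ []) (hv : vis l ∈ VS m M) : Walk m l := by
  refine ⟨hl, ?_⟩
  obtain ⟨r, _, hr, hV⟩ := basis m M
  obtain ⟨c, hc⟩ := (hV _).1 hv
  rw [← sum_mul_count]
  have h1 : ∑ i, (m i : ℚ) * (l.count i : ℚ) = 0 := by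
    calc ∑ i, (m i : ℚ) * (l.count i : ℚ) = ∑ i, (m i : ℚ) * ∑ k, c k * (r k i : ℚ) :=
          Finset.sum_congr rfl fun i _ => by rw [← hc i]; rfl
      _ = ∑ i, ∑ k, c k * ((m i : ℚ) * (r k i : ℚ)) := by
          refine Finset.sum_congr rfl fun i _ => ?_
          rw [Finset.mul_sum]
          exact Finset.sum_congr rfl fun k _ => by ring
      _ = ∑ k, c k * ∑ i, (m i : ℚ) * (r k i : ℚ) := by
          rw [Finset.sum_comm]
          exact Finset.sum_congr rfl fun k _ => by rw [Finset.mul_sum]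
      _ = 0 := by
          refine Finset.sum_eq_zero fun k _ => ?_
          have h2 : ∑ i, (m i : ℚ) * (r k i : ℚ) = 0 := by exact_mod_cast hr k
          rw [h2, mul_zero]
  exact_mod_cast h1

private theorem small_step {L : ℕ} [NeZero L] (m : ZMod L → ℤ) (M : ℕ) (hM : 1 ≤ M)
    (l : List (ZMod L)) (hl : l ≠ []) (hv : vis l ∈ VS m M) (hlen : SB L M < l.length) :
    ∃ l₂ : List (ZMod L), l₂ ≠ [] ∧ vis l₂ ∈ VS m M ∧ l₂.length < l.length ∧
      ∀ i j, cnt l₂ i j ≤ cnt l i j := by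
  classical
  have hrow : ∀ i, ∑ j, ((cnt l i j : ℕ) : ℚ) = vis l i := by
    intro i
    rw [← Nat.cast_sum, sum_cnt_left]
    rfl
  obtain ⟨lq, hlq, hq, hsum⟩ := small_eq m M hM (fun i j => ((cnt l i j : ℕ) : ℚ))
    (fun i j => Nat.cast_nonneg _)
    (fun i => by rw [← Nat.cast_sum, ← Nat.cast_sum, sum_cnt_left, sum_cnt_right])
    (by
      have e : (fun i => ∑ j, ((cnt l i j : ℕ) : ℚ)) = vis l := funext hrow
      rw [e]
      exact hv)
  -- a term with a coefficient larger than one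
  obtain ⟨q, hqm, hq1, i₀, j₀, hq0⟩ : ∃ q ∈ lq, 1 < q.1 ∧ ∃ i j, q.2 i j ≠ 0 := by
    by_contra hcon
    push Not at hcon
    have hD : ∀ i j, ((cnt l i j : ℕ) : ℚ) ≤
        ((L ^ 2 + 2 * L : ℕ) : ℚ) * ((((L ^ 2 + 2 * L) * M) ^ (2 * L) : ℕ) : ℚ) := by
      intro i j
      have h1 := List.sum_le_card_nsmul (lq.map (fun q => q.1 * (q.2 i j : ℚ)))
        ((((L ^ 2 + 2 * L) * M) ^ (2 * L) : ℕ) : ℚ) (by
          intro x hx
          rw [List.mem_map] at hx
          obtain ⟨q, hqm, rfl⟩ := hx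
          obtain ⟨h2, _, _, h3⟩ := hq q hqm
          have h4 : ((q.2 i j : ℕ) : ℚ) ≤ ((((L ^ 2 + 2 * L) * M) ^ (2 * L) : ℕ) : ℚ) := by
            exact_mod_cast h3 i j
          rcases le_or_gt q.1 1 with h5 | h5
          · calc q.1 * (q.2 i j : ℚ) ≤ 1 * (q.2 i j : ℚ) :=
                  mul_le_mul_of_nonneg_right h5 (Nat.cast_nonneg _)
              _ = (q.2 i j : ℚ) := one_mul _
              _ ≤ _ := h4
          · have h6 : q.2 i j = 0 := hcon q hqm h5 i j
            rw [h6, Nat.cast_zero, mul_zero]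
            exact Nat.cast_nonneg _)
      rw [← hsum i j, List.length_map, nsmul_eq_mul] at h1
      refine h1.trans (mul_le_mul_of_nonneg_right ?_ (Nat.cast_nonneg _))
      exact_mod_cast hlq
    have h2 : ((l.length : ℕ) : ℚ) ≤ ((SB L M : ℕ) : ℚ) := by
      rw [← small_cnt l]
      push_cast
      calc ∑ i, ∑ j, ((cnt l i j : ℕ) : ℚ)
          ≤ ∑ _i : ZMod L, ∑ _j : ZMod L,
            ((L ^ 2 + 2 * L : ℕ) : ℚ) * ((((L ^ 2 + 2 * L) * M) ^ (2 * L) : ℕ) : ℚ) :=
            Finset.sum_le_sum fun i _ => Finset.sum_le_sum fun j _ => hD i j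
        _ = ((SB L M : ℕ) : ℚ) := by
            rw [Finset.sum_const, Finset.sum_const, Finset.card_univ, ZMod.card, nsmul_eq_mul,
              nsmul_eq_mul]
            unfold SB
            push_cast
            ring
    have h3 : l.length ≤ SB L M := by exact_mod_cast h2
    omega
  obtain ⟨_, hqb, hqv, _⟩ := hq q hqm
  have hge : ∀ i j, q.1 * (q.2 i j : ℚ) ≤ ((cnt l i j : ℕ) : ℚ) := by
    intro i j
    rw [hsum i j]
    refine List.single_le_sum ?_ _ (List.mem_map.2 ⟨q, hqm, rfl⟩)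
    intro x hx
    rw [List.mem_map] at hx
    obtain ⟨q', hq', rfl⟩ := hx
    exact mul_nonneg (hq q' hq').1.le (Nat.cast_nonneg _)
  have hle : ∀ i j, q.2 i j ≤ cnt l i j := by
    intro i j
    have h1 : ((q.2 i j : ℕ) : ℚ) ≤ ((cnt l i j : ℕ) : ℚ) := by
      refine le_trans ?_ (hge i j)
      calc ((q.2 i j : ℕ) : ℚ) = 1 * (q.2 i j : ℚ) := (one_mul _).symm
        _ ≤ q.1 * (q.2 i j : ℚ) := mul_le_mul_of_nonneg_right hq1.le (Nat.cast_nonneg _)
    exact_mod_cast h1
  obtain ⟨E, hE⟩ : ∃ E : ZMod L → ZMod L → ℕ, ∀ i j, E i j + q.2 i j = cnt l i j :=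
    ⟨fun i j => cnt l i j - q.2 i j, fun i j => Nat.sub_add_cancel (hle i j)⟩
  have hEr : ∀ i, ∑ j, E i j + ∑ j, q.2 i j = l.count i := by
    intro i
    rw [← Finset.sum_add_distrib, ← sum_cnt_left]
    exact Finset.sum_congr rfl fun j _ => hE i j
  have hEc : ∀ i, ∑ j, E j i + ∑ j, q.2 j i = l.count i := by
    intro i
    rw [← Finset.sum_add_distrib, ← sum_cnt_right]
    exact Finset.sum_congr rfl fun j _ => hE j i
  have hs : ∀ i j, 0 < E i j ↔ 0 < cnt l i j := by
    intro i j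
    constructor
    · intro h
      have := hE i j
      omega
    · intro h
      by_contra hcon
      have h1 : E i j = 0 := by omega
      have h2 : cnt l i j = q.2 i j := by
        have := hE i j
        omega
      have h3 := hge i j
      rw [h2] at h3
      have h4 : (0 : ℚ) < ((q.2 i j : ℕ) : ℚ) := by
        rw [h2] at h
        exact_mod_cast h
      nlinarith
  obtain ⟨l₂, hl₂, hc₂⟩ := euler l hl E (fun i => by
    have h1 := hEr i
    have h2 := hEc i
    have h3 := hqb i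
    omega) hs
  refine ⟨l₂, hl₂, ?_, ?_, fun i j => ?_⟩
  · have h1 : vis l₂ = vis l - fun i => ((∑ j, q.2 i j : ℕ) : ℚ) := by
      funext i
      have h2 : l₂.count i = ∑ j, E i j := by
        rw [← sum_cnt_left]
        exact Finset.sum_congr rfl fun j _ => hc₂ i j
      have h3 := hEr i
      rw [← h2] at h3
      have h4 : ((l₂.count i : ℕ) : ℚ) + ((∑ j, q.2 i j : ℕ) : ℚ) = ((l.count i : ℕ) : ℚ) := by
        exact_mod_cast h3
      show ((l₂.count i : ℕ) : ℚ) = ((l.count i : ℕ) : ℚ) - ((∑ j, q.2 i j : ℕ) : ℚ)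
      linarith
    rw [h1]
    exact Submodule.sub_mem _ hv hqv
  · have h1 : l₂.length + ∑ i, ∑ j, q.2 i j = l.length := by
      rw [← small_cnt l₂, ← small_cnt l, ← Finset.sum_add_distrib]
      refine Finset.sum_congr rfl fun i _ => ?_
      rw [← Finset.sum_add_distrib]
      refine Finset.sum_congr rfl fun j _ => ?_
      rw [hc₂]
      exact hE i j
    have h2 : q.2 i₀ j₀ ≤ ∑ i, ∑ j, q.2 i j := by
      refine le_trans ?_ (Finset.single_le_sum (f := fun i => ∑ j, q.2 i j)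
        (fun _ _ => Nat.zero_le _) (Finset.mem_univ i₀))
      exact Finset.single_le_sum (f := fun j => q.2 i₀ j) (fun _ _ => Nat.zero_le _)
        (Finset.mem_univ j₀)
    omega
  · rw [hc₂]
    have := hE i j
    omega

theorem small {L : ℕ} [NeZero L] (m : ZMod L → ℤ) (M : ℕ) (hM : 1 ≤ M) (l : List (ZMod L))
    (hl : l ≠ []) (hv : vis l ∈ VS m M) :
    ∃ l', Walk m l' ∧ l'.length ≤ SB L M ∧ ∀ i j, cnt l' i j ≤ cnt l i j := by
  obtain ⟨n, hn⟩ : ∃ n, n = l.length := ⟨_, rfl⟩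
  induction n using Nat.strong_induction_on generalizing l with
  | _ n ih =>
    rcases le_or_gt l.length (SB L M) with h | h
    · exact ⟨l, small_walk m M l hl hv, h, fun _ _ => le_rfl⟩
    · obtain ⟨l₂, h1, h2, h3, h4⟩ := small_step m M hM l hl hv h
      obtain ⟨l', h5, h6, h7⟩ := ih l₂.length (by omega) l₂ h1 h2 rfl
      exact ⟨l', h5, h6, fun i j => (h7 i j).trans (h4 i j)⟩

end Pool.Agent.Lib.MP_3d915a_al.EG
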