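import Pool.Agent.Lib.MP_3d915a_al.SCL.Dickson
import Pool.Agent.Lib.MP_3d915a_al.EG.Defs

/-!
# EG-Trunc: replace the walks by short ones

The same proof as `transfer` in SCL.Dickson (with its private lemma `tr_aux`; `sum_cnt` is public there): drop the walks of length
`> M`, replace the other ones by the short walks.
-/

namespace Pool.Agent.Lib.MP_3d915a_al.EG

private theorem tr_short {L M S : ℕ} [NeZero L] (m : ZMod L → ℤ)
    (kA : ∀ l, Walk m l → l.length ≤ M →
      ∃ l', Walk m l' ∧ l'.length ≤ S ∧ ∀ i j, cnt l' i j ≤ cnt l i j)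
    (DA : List (List (ZMod L))) (hW : ∀ l ∈ DA, Walk m l) :
    ∃ DA' : List (List (ZMod L)), (∀ l ∈ DA', Walk m l ∧ l.length ≤ S) ∧
      (∀ i j, (DA'.map (fun l => cnt l i j)).sum ≤ (DA.map (fun l => cnt l i j)).sum) ∧
      DA.length * (M + 1) ≤ DA'.length * (M + 1) +
        ∑ i, ∑ j, (DA.map (fun l => cnt l i j)).sum := by
  induction DA with
  | nil => exact ⟨[], by simp, by simp, by simp⟩
  | cons l DA ih =>
    obtain ⟨DA', h1, h2, h3⟩ := ih (fun x hx => hW x (List.mem_cons_of_mem _ hx))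
    have hsum : ∑ i, ∑ j, ((l :: DA).map (fun l => cnt l i j)).sum =
        l.length + ∑ i, ∑ j, (DA.map (fun l => cnt l i j)).sum := by
      simp only [List.map_cons, List.sum_cons, Finset.sum_add_distrib]
      rw [sum_cnt]
    by_cases hl : l.length ≤ M
    · obtain ⟨l', hl', hS, hle⟩ := kA l (hW l List.mem_cons_self) hl
      refine ⟨l' :: DA', ?_, ?_, ?_⟩
      · intro x hx
        rcases List.mem_cons.1 hx with rfl | hx
        · exact ⟨hl', hS⟩
        · exact h1 x hx
      · intro i j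
        simp only [List.map_cons, List.sum_cons]
        exact Nat.add_le_add (hle i j) (h2 i j)
      · rw [hsum, List.length_cons, List.length_cons]
        nlinarith
    · refine ⟨DA', h1, ?_, ?_⟩
      · intro i j
        simp only [List.map_cons, List.sum_cons]
        exact (h2 i j).trans (Nat.le_add_left _ _)
      · rw [hsum, List.length_cons]
        have h6 : M + 1 ≤ l.length := by omega
        nlinarith

theorem trunc {L n M S : ℕ} [NeZero L] (m p : ZMod L → ℤ)
    (hA : ∀ l, Walk m l → l.length ≤ M →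
      ∃ l', Walk m l' ∧ l'.length ≤ S ∧ ∀ i j, cnt l' i j ≤ cnt l i j)
    (hB : ∀ l, Walk p l → l.length ≤ M →
      ∃ l', Walk p l' ∧ l'.length ≤ S ∧ ∀ i j, cnt l' i j ≤ cnt l i j)
    (z : ℕ) (h : Sol L n m p z) :
    ∃ z', SolS L n S m p z' ∧ z * (M + 1) ≤ z' * (M + 1) + 2 * (n * L) := by
  obtain ⟨Y, DA, DB, hr, hc, hWA, hWB, hYA, hYB, hz⟩ := h
  obtain ⟨DA', a1, a2, a3⟩ := tr_short m hA DA hWA
  obtain ⟨DB', b1, b2, b3⟩ := tr_short p hB DB hWB
  refine ⟨DA'.length + DB'.length, ⟨Y, DA', DB', hr, hc, a1, b1,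
    fun i j => (a2 i j).trans (hYA i j), fun k i => (b2 k i).trans (hYB k i), rfl⟩, ?_⟩
  have e1 : ∑ i, ∑ j, (DA.map (fun l => cnt l i j)).sum ≤ n * L := by
    calc ∑ i, ∑ j, (DA.map (fun l => cnt l i j)).sum ≤ ∑ i, ∑ j, Y i j :=
          Finset.sum_le_sum fun i _ => Finset.sum_le_sum fun j _ => hYA i j
      _ = n * L := by
          rw [Finset.sum_congr rfl fun i _ => hr i, Finset.sum_const, Finset.card_univ, ZMod.card,
            smul_eq_mul, mul_comm]
  have e2 : ∑ k, ∑ i, (DB.map (fun l => cnt l k i)).sum ≤ n * L := by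
    calc ∑ k, ∑ i, (DB.map (fun l => cnt l k i)).sum ≤ ∑ k, ∑ i, Y i (k + 1) :=
          Finset.sum_le_sum fun i _ => Finset.sum_le_sum fun j _ => hYB i j
      _ = ∑ k, ∑ i, Y i k := by
          exact Fintype.sum_equiv (Equiv.addRight (1 : ZMod L)) _ _ (fun k => rfl)
      _ = n * L := by
          rw [Finset.sum_congr rfl fun k _ => hc k, Finset.sum_const, Finset.card_univ, ZMod.card,
            smul_eq_mul, mul_comm]
  rw [← hz]
  nlinarith

end Pool.Agent.Lib.MP_3d915a_al.EG
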