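import Pool.Agent.Lib.MP_3d915a_al.SCL.Main
import Pool.Agent.Lib.MP_3d915a_al.EG.Small
import Pool.Agent.Lib.MP_3d915a_al.EG.Scale
import Pool.Agent.Lib.MP_3d915a_al.EG.LP
import Pool.Agent.Lib.MP_3d915a_al.EG.Trunc
import Pool.Agent.Lib.MP_3d915a_al.EG.Num

/-!
# EG-Main: the explicit gap
-/

namespace Pool.Agent.Lib.MP_3d915a_al.EG

open Filter

private theorem mn_pc_cl {g : F2} (hg : g ∈ commutator F2) : ProdComm (cl g) g :=
  Nat.sInf_mem (s := {k : ℕ | ProdComm k g}) (pc_of_mem hg)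

private theorem mn_vis {L : ℕ} (m : ZMod L → ℤ) (M : ℕ) {l : List (ZMod L)} (h : Walk m l)
    (hl : l.length ≤ M) : vis l ∈ VS m M :=
  Submodule.subset_span ⟨l, h, hl, rfl⟩

/-- the gap above `P / Q` for the words `wd L m p` -/
theorem gap_word {L Q : ℕ} [NeZero L] (hQ : 1 ≤ Q) (P : ℤ) (m p : ZMod L → ℤ)
    (hm : ∑ i, m i = 0) (hp : ∑ i, p i = 0)
    (h1 : (P : ℝ) / Q < scl (ev (wd L m p))) :
    (P : ℝ) / Q + 1 / ((MM L Q (2 * L + 1) : ℕ) + 1) ≤ scl (ev (wd L m p)) := by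
  have hL : 1 ≤ L := Nat.one_le_iff_ne_zero.2 (NeZero.ne L)
  by_contra hcon
  rw [not_le] at hcon
  obtain ⟨i, hi, hVm, hVp⟩ := scale m p (MM L Q) (mm_mono hL hQ)
  obtain ⟨M, hM⟩ : ∃ M, M = MM L Q i := ⟨_, rfl⟩
  obtain ⟨M', hM'⟩ : ∃ M', M' = MM L Q (i + 1) := ⟨_, rfl⟩
  obtain ⟨S, hS⟩ : ∃ S, S = SB L M := ⟨_, rfl⟩
  obtain ⟨B, hB⟩ : ∃ B, B = LB L S := ⟨_, rfl⟩
  have hM1 : 1 ≤ M := by rw [hM]; exact mm_pos hL hQ i
  have hS1 : 1 ≤ S := by rw [hS]; exact sb_pos hL hM1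
  have hM'B : M' = 4 * L * Q * B := by rw [hM', hB, hS, hM]; rfl
  have hM'1 : 1 ≤ M' := by rw [hM']; exact mm_pos hL hQ (i + 1)
  have hB1 : 1 ≤ B := by
    rcases Nat.eq_zero_or_pos B with h | h
    · rw [h, mul_zero] at hM'B
      omega
    · exact h
  have hMle : M' ≤ MM L Q (2 * L + 1) := by
    rw [hM']
    exact mm_mono hL hQ (by omega)
  rw [← hM', ← hM] at hVm hVp
  have hLr : (1 : ℝ) ≤ L := by exact_mod_cast hL
  have hQr : (1 : ℝ) ≤ Q := by exact_mod_cast hQ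
  have hBr : (1 : ℝ) ≤ B := by exact_mod_cast hB1
  have hM'r : (M' : ℝ) = 4 * L * Q * B := by rw [hM'B]; push_cast; ring
  set ε : ℝ := 1 / ((MM L Q (2 * L + 1) : ℕ) + 1) with hε
  have hε1 : ε ≤ 1 / (M' + 1) := by
    rw [hε]
    apply one_div_le_one_div_of_le (by positivity)
    have : (M' : ℝ) ≤ (MM L Q (2 * L + 1) : ℕ) := by exact_mod_cast hMle
    linarith
  have hQB : (1 : ℝ) / (M' + 1) < 1 / (4 * L * (Q * B)) := by
    apply one_div_lt_one_div_of_lt (by positivity)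
    rw [hM'r]
    nlinarith
  -- the trivial word
  by_cases hW : ev (wd L m p) = 1
  · rw [hW, scl_one] at h1 hcon
    have h2 : P < 0 := by
      by_contra h
      rw [not_lt] at h
      have h3 : (0 : ℝ) ≤ (P : ℝ) / Q := div_nonneg (by exact_mod_cast h) (by linarith)
      linarith
    have h3 : (P : ℝ) ≤ -1 := by exact_mod_cast Int.le_sub_one_of_lt h2
    have h4 : (P : ℝ) / Q ≤ -1 / Q := div_le_div_of_nonneg_right h3 (by linarith)
    have h5 : 1 / (4 * L * (Q * B)) ≤ 1 / (Q : ℝ) := by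
      apply one_div_le_one_div_of_le (by positivity)
      nlinarith [mul_nonneg (sub_nonneg.2 hLr) (by linarith : (0 : ℝ) ≤ Q),
        mul_nonneg (sub_nonneg.2 hBr) (by linarith : (0 : ℝ) ≤ Q), mul_pos (by linarith : (0 : ℝ) < L)
          (mul_pos (by linarith : (0 : ℝ) < Q) (by linarith : (0 : ℝ) < B))]
    have h6 : -1 / (Q : ℝ) = - (1 / Q) := by ring
    linarith
  -- a power with small commutator length
  have hcom : ev (wd L m p) ∈ commutator F2 := (abel m p).2 ⟨hm, hp⟩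
  obtain ⟨n, hn⟩ : ∃ n : ℕ+, (cl (ev (wd L m p) ^ (n : ℕ)) : ℝ) / ((n : ℕ) : ℝ) < (P : ℝ) / Q + ε := by
    have := hcon
    rw [scl] at this
    exact exists_lt_of_ciInf_lt this
  obtain ⟨n, hn0⟩ := n
  simp only [PNat.mk_coe] at hn
  set k := cl (ev (wd L m p) ^ n) with hk
  have hn1 : (1 : ℝ) ≤ n := by exact_mod_cast hn0
  have hn' : (k : ℝ) < n * ((P : ℝ) / Q + ε) := by
    rw [div_lt_iff₀ (by linarith)] at hn
    linarith
  have hpc : ProdComm k (ev ((List.replicate n (wd L m p)).flatten)) := by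
    rw [ev_replicate]
    exact mn_pc_cl (Subgroup.pow_mem _ hcom n)
  have hne : (List.replicate n (wd L m p)).flatten ≠ [] := by
    intro h
    have h2 := congrArg List.length h
    rw [List.length_flatten, List.map_replicate, List.sum_replicate] at h2
    have h3 : (wd L m p).length = L := by simp [wd]
    rw [h3, smul_eq_mul, List.length_nil, Nat.mul_eq_zero] at h2
    omega
  obtain ⟨z, hz, hzn⟩ := extract hn0 m p _ (gs_lower hne hpc)
  -- truncation
  have hsm : ∀ l, Walk m l → l.length ≤ M' →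
      ∃ l', Walk m l' ∧ l'.length ≤ S ∧ ∀ i j, cnt l' i j ≤ cnt l i j := by
    intro l hl hlen
    rw [hS]
    exact small m M hM1 l hl.1 (by rw [← hVm]; exact mn_vis m M' hl hlen)
  have hsp : ∀ l, Walk p l → l.length ≤ M' →
      ∃ l', Walk p l' ∧ l'.length ≤ S ∧ ∀ i j, cnt l' i j ≤ cnt l i j := by
    intro l hl hlen
    rw [hS]
    exact small p M hM1 l hl.1 (by rw [← hVp]; exact mn_vis p M' hl hlen)
  obtain ⟨z1, hz1, hzz⟩ := trunc m p hsm hsp z hz
  -- the small solution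
  have hM0 : (0 : ℝ) < (M' : ℝ) + 1 := by positivity
  have e1 : (z : ℝ) ≤ z1 + 2 * (n * L) / (M' + 1) := by
    rw [← sub_le_iff_le_add', le_div_iff₀ hM0]
    have : (z : ℝ) * (M' + 1) ≤ z1 * (M' + 1) + 2 * (n * L) := by exact_mod_cast hzz
    linarith
  have e2 : (n : ℝ) * L - (2 * k - 1) ≤ z := by exact_mod_cast hzn
  have e3 : (n : ℝ) * (L - 2 * (P / Q) - 1 / (Q * B)) < z1 := by
    have f1 : (2 : ℝ) * (n * L) / (M' + 1) = n * (2 * L * (1 / (M' + 1))) := by ring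
    have f2 : (n : ℝ) * ε ≤ n * (1 / (M' + 1)) := mul_le_mul_of_nonneg_left hε1 (by linarith)
    have f3 : (1 : ℝ) / (Q * B) = 4 * L * (1 / (4 * L * (Q * B))) := by
      field_simp
    have f4 : (n : ℝ) * (4 * L * (1 / (M' + 1))) ≤ n * (1 / (Q * B)) := by
      rw [f3]
      apply mul_le_mul_of_nonneg_left _ (by linarith)
      apply mul_le_mul_of_nonneg_left hQB.le (by linarith)
    have f5 : (n : ℝ) * (1 / (M' + 1)) ≤ n * (L * (1 / (M' + 1))) := by
      apply mul_le_mul_of_nonneg_left _ (by linarith)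
      have : (0 : ℝ) ≤ 1 / (M' + 1) := by positivity
      nlinarith
    rw [f1] at e1
    nlinarith
  obtain ⟨n', z', hn'1, hn'B, hsol, hc⟩ := lp hS1 m p z1 hz1 ((L : ℚ) - 2 * (P / Q) - 1 / (Q * B))
    (by
      have e4 : (((L : ℚ) - 2 * (P / Q) - 1 / (Q * B)) * n : ℚ) < (z1 : ℚ) := by
        have : ((((L : ℚ) - 2 * (P / Q) - 1 / (Q * B)) * n : ℚ) : ℝ) < ((z1 : ℚ) : ℝ) := by
          push_cast
          linarith
        exact_mod_cast this
      exact e4)
  rw [← hB] at hn'B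
  have g1 : (n' : ℝ) * L - z' ≤ 2 * n' * (P / Q) := by
    have k1 : ((L : ℝ) - 2 * (P / Q) - 1 / (Q * B)) * n' < z' := by
      have : (((L : ℚ) - 2 * (P / Q) - 1 / (Q * B)) * n' : ℚ) < (z' : ℚ) := hc
      have k2 : (((((L : ℚ) - 2 * (P / Q) - 1 / (Q * B)) * n' : ℚ)) : ℝ) < (((z' : ℚ)) : ℝ) := by
        exact_mod_cast this
      push_cast at k2
      exact k2
    have k3 : (n' : ℝ) * (1 / (Q * B)) ≤ 1 / Q := by
      have : (n' : ℝ) ≤ B := by exact_mod_cast hn'B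
      rw [mul_one_div, div_le_div_iff₀ (by positivity) (by positivity)]
      nlinarith
    have k4 : (Q : ℝ) * z' > n' * (Q * L - 2 * P) - 1 := by
      have k5 : ((L : ℝ) - 2 * (P / Q)) * n' - 1 / Q < z' := by nlinarith
      have k6 : (Q : ℝ) * (((L : ℝ) - 2 * (P / Q)) * n' - 1 / Q) < Q * z' :=
        mul_lt_mul_of_pos_left k5 (by linarith)
      have k7 : (Q : ℝ) * (((L : ℝ) - 2 * (P / Q)) * n' - 1 / Q) = n' * (Q * L - 2 * P) - 1 := by
        field_simp
      linarith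
    have k8 : (n' : ℤ) * (Q * L - 2 * P) ≤ Q * z' := by
      have : (n' : ℤ) * (Q * L - 2 * P) - 1 < Q * z' := by exact_mod_cast k4
      omega
    have k9 : (n' : ℝ) * (Q * L - 2 * P) ≤ Q * z' := by exact_mod_cast k8
    have k10 : (n' : ℝ) * L - z' - 2 * n' * (P / Q) = (n' * (Q * L - 2 * P) - Q * z') / Q := by
      field_simp
      ring
    have k11 : (n' * (Q * L - 2 * P) - Q * z') / (Q : ℝ) ≤ 0 :=
      div_nonpos_of_nonpos_of_nonneg (by linarith) (by linarith)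
    linarith
  have hup := upper hn'1 m p hm hp hW z' hsol
  have hn'0 : (0 : ℝ) < n' := by exact_mod_cast hn'1
  have : ((n' : ℝ) * L - z') / (2 * n') ≤ P / Q := by
    rw [div_le_iff₀ (by positivity)]
    linarith
  linarith

private theorem mn_el_zero : el (0, 0) = 1 := by simp [el]

private theorem mn_prod_range_getD (u : List (ℤ × ℤ)) : ∀ K : ℕ, u.length ≤ K →
    ((List.range K).map (fun q => el (u.getD q (0, 0)))).prod = (u.map el).prod := by
  induction u with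
  | nil =>
    intro K _
    rw [List.map_nil, List.prod_nil]
    apply List.prod_eq_one
    intro x hx
    obtain ⟨q, _, rfl⟩ := List.mem_map.1 hx
    simp [mn_el_zero]
  | cons a u ih =>
    intro K hK
    obtain ⟨K', rfl⟩ : ∃ K', K = K' + 1 := ⟨K - 1, by simp at hK; omega⟩
    rw [List.range_succ_eq_map, List.map_cons, List.prod_cons, List.map_cons, List.prod_cons,
      List.map_map]
    have h1 := ih K' (by simpa using hK)
    rw [← h1]
    rfl

private theorem mn_ev_pad (L : ℕ) [NeZero L] (u : List (ℤ × ℤ)) (hu : u.length ≤ L) :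
    ev (wd L (fun q => (u.getD q.val (0, 0)).1) (fun q => (u.getD q.val (0, 0)).2)) = ev u := by
  rw [ev, ev, wd, List.map_map, ← mn_prod_range_getD u L hu]
  congr 1
  apply List.map_congr_left
  intro q hq
  have hq' : q < L := List.mem_range.1 hq
  simp only [Function.comp]
  have h1 : ((q : ZMod L)).val = q := ZMod.val_natCast_of_lt hq'
  rw [h1]

/-- the explicit gap -/
theorem explicit_gap {L Q : ℕ} (hL : 2 ≤ L) (hQ : 1 ≤ Q) (P : ℤ) (g : F2)
    (hg : g ∈ commutator F2) (hS : SyllLE L g) (h1 : (P : ℝ) / Q < scl g) :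
    (P : ℝ) / Q + 1 / (4 * L * Q) ^ (4 * L) ^ (15 * L) ≤ scl g := by
  have : NeZero L := ⟨by omega⟩
  obtain ⟨θ, u, hu, hθ⟩ := hS
  have hev := mn_ev_pad L u hu
  have hcom : ev (wd L (fun q => (u.getD q.val (0, 0)).1) (fun q => (u.getD q.val (0, 0)).2)) ∈
      commutator F2 := by
    rw [hev, ← hθ]
    obtain ⟨n, hn⟩ := pc_of_mem hg
    exact mem_of_pc (pc_map θ.toMonoidHom hn)
  have h2 : scl (ev (wd L (fun q => (u.getD q.val (0, 0)).1)
      (fun q => (u.getD q.val (0, 0)).2))) = scl g := by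
    rw [hev, ← hθ, scl_equiv]
  have h3 := gap_word hQ P _ _ ((abel _ _).1 hcom).1 ((abel _ _).1 hcom).2 (by rw [h2]; exact h1)
  rw [h2] at h3
  have h4 : 1 / ((4 * L * Q : ℝ)) ^ (4 * L) ^ (15 * L) ≤
      1 / (((MM L Q (2 * L + 1) : ℕ) : ℝ) + 1) := by
    apply one_div_le_one_div_of_le (by positivity)
    exact_mod_cast mm_le hL hQ
  linarith

end Pool.Agent.Lib.MP_3d915a_al.EG
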