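import Pool.Agent.Lib.MP_3d915a_al.EG.Siegel

/-!
# EG-MinSol: a small non-negative integral solution

Strong induction on the number of `j` with `x j ≠ 0`. Let `S = {j // x j ≠ 0}` (classical), `A' r (j : S) = A r j`,
`x' j = x j`. `siegel_rows` for `A'`, `x'` (`x' ≠ 0`) gives `t : S → ℤ`, `t ≠ 0`, `A' t = 0`, `|t j| ≤ (card S * M) ^ card ρ ≤
(card ι * M) ^ card ρ`. Replace `t` by `-t` if necessary so that some `t j > 0`.
If all `t j ≥ 0`: `y j = (t j).toNat` for `j ∈ S`, `0` otherwise. If some `t j₁ < 0`: let `c = min {x j / t j : t j > 0}`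
(`Finset.exists_min_image`), `c > 0`, attained at `j₀`; `x₂ j = x j - c * t j` on `S`, `0` elsewhere, is `≥ 0`, zero at
`j₀` (and outside of `S`), non-zero at `j₁`; the induction hypothesis for `x₂` gives `y`; `x j = 0 → x₂ j = 0 → y j = 0`.
-/

namespace Pool.Agent.Lib.MP_3d915a_al.EG

open Finset in
private theorem minsol_sum {ι : Type} [Fintype ι] [DecidableEq ι] {R : Type} [CommRing R] (x : ι → ℚ)
    (a : ι → R) (g : {j : ι // x j ≠ 0} → R) (f : ι → R)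
    (hf : ∀ j (h : x j ≠ 0), f j = g ⟨j, h⟩) (hf0 : ∀ j, x j = 0 → f j = 0) :
    ∑ j, a j * f j = ∑ j : {j : ι // x j ≠ 0}, a j.1 * g j := by
  classical
  rw [← Fintype.sum_subtype_add_sum_subtype (fun j => x j ≠ 0) (fun j => a j * f j)]
  have h2 : ∑ i : {j : ι // ¬ (x j ≠ 0)}, a i.1 * f i.1 = 0 := by
    refine Finset.sum_eq_zero (fun i _ => ?_)
    rw [hf0 i.1 (not_not.1 i.2), mul_zero]
  rw [h2, add_zero]
  exact Finset.sum_congr rfl (fun i _ => by rw [hf i.1 i.2])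

private theorem minsol_aux {ι ρ : Type} [Fintype ι] [DecidableEq ι] [Fintype ρ] (A : ρ → ι → ℤ) (M : ℕ)
    (hM : 1 ≤ M) (hA : ∀ r j, |A r j| ≤ M) : ∀ (n : ℕ) (x : ι → ℚ),
    (Finset.univ.filter (fun j => x j ≠ 0)).card = n → (∀ j, 0 ≤ x j) → x ≠ 0 →
    (∀ r, ∑ j, (A r j : ℚ) * x j = 0) →
    ∃ y : ι → ℕ, y ≠ 0 ∧ (∀ r, ∑ j, A r j * (y j : ℤ) = 0) ∧ (∀ j, x j = 0 → y j = 0) ∧
      ∀ j, y j ≤ (Fintype.card ι * M) ^ Fintype.card ρ := by
  classical
  intro n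
  induction n using Nat.strong_induction_on with
  | _ n ih =>
  intro x hn h0 hx0 hx
  have hx0' : (fun j : {j : ι // x j ≠ 0} => x j.1) ≠ 0 := by
    obtain ⟨j, hj⟩ := Function.ne_iff.1 hx0
    intro h
    exact hj (congrFun h ⟨j, hj⟩)
  have hx' : ∀ r, ∑ j : {j : ι // x j ≠ 0}, ((A r j.1 : ℤ) : ℚ) * x j.1 = 0 := by
    intro r
    refine Eq.trans ?_ (hx r)
    exact (minsol_sum x (fun j => (A r j : ℚ)) (fun j => x j.1) x (fun _ _ => rfl) (fun _ h => h)).symm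
  obtain ⟨t₀, ht₀0, ht₀A, ht₀b⟩ := siegel_rows (fun r (j : {j : ι // x j ≠ 0}) => A r j.1) M hM
    (fun r j => hA r j.1) (fun j => x j.1) hx0' hx'
  -- a positive coordinate
  obtain ⟨t, ⟨jp, hjp⟩, htA, htb⟩ : ∃ t : {j : ι // x j ≠ 0} → ℤ, (∃ j, 0 < t j) ∧
      (∀ r, ∑ j, A r j.1 * t j = 0) ∧
      ∀ j, |t j| ≤ ((Fintype.card {j : ι // x j ≠ 0} * M) ^ Fintype.card ρ : ℕ) := by
    by_cases h : ∃ j, 0 < t₀ j
    · exact ⟨t₀, h, ht₀A, ht₀b⟩
    · push Not at h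
      obtain ⟨j, hj⟩ := Function.ne_iff.1 ht₀0
      refine ⟨-t₀, ⟨j, ?_⟩, ?_, ?_⟩
      · have h1 := h j
        have h2 : t₀ j ≠ 0 := hj
        rw [Pi.neg_apply]
        omega
      · intro r
        have := ht₀A r
        simp only [Pi.neg_apply, mul_neg, Finset.sum_neg_distrib]
        rw [this, neg_zero]
      · intro j
        rw [Pi.neg_apply, abs_neg]
        exact ht₀b j
  have hcard : Fintype.card {j : ι // x j ≠ 0} ≤ Fintype.card ι := Fintype.card_subtype_le _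
  have hbd : (Fintype.card {j : ι // x j ≠ 0} * M) ^ Fintype.card ρ ≤ (Fintype.card ι * M) ^ Fintype.card ρ :=
    Nat.pow_le_pow_left (Nat.mul_le_mul_right _ hcard) _
  by_cases hall : ∀ j, 0 ≤ t j
  · refine ⟨fun j => if h : x j ≠ 0 then (t ⟨j, h⟩).toNat else 0, ?_, ?_, ?_, ?_⟩
    · intro h
      have h1 := congrFun h jp.1
      simp only [Pi.zero_apply] at h1
      rw [dif_pos jp.2] at h1
      have h2 : (t jp).toNat = 0 := h1
      omega
    · intro r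
      rw [minsol_sum x (fun j => A r j) t
        (fun j => (((if h : x j ≠ 0 then (t ⟨j, h⟩).toNat else 0 : ℕ)) : ℤ)) ?_ ?_]
      · exact htA r
      · intro j h
        rw [dif_pos h]
        exact Int.toNat_of_nonneg (hall ⟨j, h⟩)
      · intro j h
        rw [dif_neg (not_not.2 h)]
        rfl
    · intro j h
      exact dif_neg (not_not.2 h)
    · intro j
      by_cases h : x j ≠ 0
      · show (if h : x j ≠ 0 then (t ⟨j, h⟩).toNat else 0) ≤ _
        rw [dif_pos h]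
        refine le_trans ?_ hbd
        have h1 := htb ⟨j, h⟩
        have h2 := le_abs_self (t ⟨j, h⟩)
        omega
      · show (if h : x j ≠ 0 then (t ⟨j, h⟩).toNat else 0) ≤ _
        rw [dif_neg h]
        exact Nat.zero_le _
  · push Not at hall
    obtain ⟨j₁, hj₁⟩ := hall
    obtain ⟨j₀, hj₀m, hj₀⟩ := Finset.exists_min_image
      (Finset.univ.filter (fun j : {j : ι // x j ≠ 0} => 0 < t j)) (fun j => x j.1 / (t j : ℚ))
      ⟨jp, by simpa using hjp⟩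
    rw [Finset.mem_filter] at hj₀m
    have htj₀ : (0 : ℚ) < t j₀ := by exact_mod_cast hj₀m.2
    have hxj₀ : 0 < x j₀.1 := lt_of_le_of_ne (h0 _) (Ne.symm j₀.2)
    set c : ℚ := x j₀.1 / (t j₀ : ℚ) with hc
    have hc0 : 0 < c := div_pos hxj₀ htj₀
    have hx₂ : ∃ x₂ : ι → ℚ, (∀ j (h : x j ≠ 0), x₂ j = x j - c * (t ⟨j, h⟩ : ℚ)) ∧
        ∀ j, x j = 0 → x₂ j = 0 :=
      ⟨fun j => if h : x j ≠ 0 then x j - c * (t ⟨j, h⟩ : ℚ) else 0, fun j h => dif_pos h,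
        fun j h => dif_neg (not_not.2 h)⟩
    obtain ⟨x₂, hx₂a, hx₂b⟩ := hx₂
    have hz : x₂ j₀.1 = 0 := by
      rw [hx₂a j₀.1 j₀.2]
      show x j₀.1 - c * (t j₀ : ℚ) = 0
      rw [hc, div_mul_cancel₀ _ htj₀.ne', sub_self]
    have hnz : x₂ j₁.1 ≠ 0 := by
      rw [hx₂a j₁.1 j₁.2]
      show x j₁.1 - c * (t j₁ : ℚ) ≠ 0
      have h1 : (t j₁ : ℚ) < 0 := by exact_mod_cast hj₁
      have h2 := h0 j₁.1
      have h3 : c * (t j₁ : ℚ) < 0 := mul_neg_of_pos_of_neg hc0 h1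
      linarith
    have hsub : ∀ j, x₂ j ≠ 0 → x j ≠ 0 := fun j h h' => h (hx₂b j h')
    obtain ⟨y, hy1, hy2, hy3, hy4⟩ := ih (Finset.univ.filter (fun j => x₂ j ≠ 0)).card (by
        rw [← hn]
        refine Finset.card_lt_card (Finset.ssubset_iff_of_subset ?_ |>.2 ⟨j₀.1, ?_, ?_⟩)
        · intro j hj
          rw [Finset.mem_filter] at hj ⊢
          exact ⟨hj.1, hsub j hj.2⟩
        · rw [Finset.mem_filter]
          exact ⟨Finset.mem_univ _, j₀.2⟩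
        · rw [Finset.mem_filter]
          exact fun h => h.2 hz) x₂ rfl (by
        intro j
        by_cases h : x j ≠ 0
        · rw [hx₂a j h]
          by_cases ht : 0 < t ⟨j, h⟩
          · have h1 := hj₀ ⟨j, h⟩ (by rw [Finset.mem_filter]; exact ⟨Finset.mem_univ _, ht⟩)
            have h2 : (0 : ℚ) < t ⟨j, h⟩ := by exact_mod_cast ht
            have h3 : c ≤ x j / (t ⟨j, h⟩ : ℚ) := h1
            rw [le_div_iff₀ h2] at h3
            linarith
          · have h2 : (t ⟨j, h⟩ : ℚ) ≤ 0 := by exact_mod_cast not_lt.1 ht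
            have h3 : c * (t ⟨j, h⟩ : ℚ) ≤ 0 := mul_nonpos_of_nonneg_of_nonpos hc0.le h2
            have h4 := h0 j
            linarith
        · rw [hx₂b j (not_not.1 h)]) (fun h => hnz (congrFun h j₁.1)) (by
        intro r
        rw [minsol_sum x (fun j => (A r j : ℚ)) (fun j => x j.1 - c * (t j : ℚ)) x₂
          (fun j h => hx₂a j h) hx₂b]
        have h1 : ∑ j : {j : ι // x j ≠ 0}, ((A r j.1 : ℤ) : ℚ) * (x j.1 - c * (t j : ℚ)) =
            (∑ j : {j : ι // x j ≠ 0}, ((A r j.1 : ℤ) : ℚ) * x j.1) -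
            c * ((∑ j : {j : ι // x j ≠ 0}, A r j.1 * t j : ℤ) : ℚ) := by
          push_cast
          rw [Finset.mul_sum, ← Finset.sum_sub_distrib]
          exact Finset.sum_congr rfl (fun j _ => by ring)
        rw [h1, hx' r, htA r]
        simp)
    exact ⟨y, hy1, hy2, fun j h => hy3 j (hx₂b j h), hy4⟩

theorem min_sol {ι ρ : Type} [Fintype ι] [DecidableEq ι] [Fintype ρ] (A : ρ → ι → ℤ) (M : ℕ)
    (hM : 1 ≤ M) (hA : ∀ r j, |A r j| ≤ M) (x : ι → ℚ) (h0 : ∀ j, 0 ≤ x j) (hx0 : x ≠ 0)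
    (hx : ∀ r, ∑ j, (A r j : ℚ) * x j = 0) :
    ∃ y : ι → ℕ, y ≠ 0 ∧ (∀ r, ∑ j, A r j * (y j : ℤ) = 0) ∧ (∀ j, x j = 0 → y j = 0) ∧
      ∀ j, y j ≤ (Fintype.card ι * M) ^ Fintype.card ρ := by
  exact minsol_aux A M hM hA _ x rfl h0 hx0 hx

end Pool.Agent.Lib.MP_3d915a_al.EG
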