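import Pool.Agent.Lib.MP_3d915a_al.EG.Defs

/-!
# EG-Rows: the equations of the linear program, written out

`sum_va` and `simp [lpm]` for each of the four kinds of equations (`Eqn` by cases). The sums with `if i' = i ∧ j' = j` collapse
(`Finset.sum_ite_eq`, `ite_and`). `lpm_abs`: cases; `D (i, j) ≤ S` by `Fin.is_le`.
-/

namespace Pool.Agent.Lib.MP_3d915a_al.EG

private theorem ite_abs_le {S : ℕ} (hS : 1 ≤ S) (p : Prop) [Decidable p] (a : ℤ) (ha : |a| ≤ 1) :
    |if p then a else 0| ≤ (S : ℤ) := by
  have h1 : (1 : ℤ) ≤ S := by exact_mod_cast hS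
  split_ifs
  · exact ha.trans h1
  · rw [abs_zero]
    linarith

private theorem fin_abs_le {S : ℕ} (k : Fin (S + 1)) : |((k : ℕ) : ℤ)| ≤ (S : ℤ) := by
  rw [abs_of_nonneg (Int.natCast_nonneg _)]
  exact_mod_cast k.is_le

theorem lpm_abs {L S : ℕ} (hS : 1 ≤ S) (e : Eqn L) (v : Va L S) : |lpm L S e v| ≤ S := by
  have h1 : (1 : ℤ) ≤ S := by exact_mod_cast hS
  have h0 : |(0 : ℤ)| ≤ (S : ℤ) := by
    rw [abs_zero]
    linarith
  have hn : |(-1 : ℤ)| ≤ (S : ℤ) := by
    rw [abs_neg, abs_one]
    exact h1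
  cases e with
  | row i =>
    cases v with
    | y i' j' => exact ite_abs_le hS _ 1 (by simp)
    | sa i' j' => exact h0
    | sb k' i' => exact h0
    | xa D => exact h0
    | xb D => exact h0
    | n => exact hn
  | col j =>
    cases v with
    | y i' j' => exact ite_abs_le hS _ 1 (by simp)
    | sa i' j' => exact h0
    | sb k' i' => exact h0
    | xa D => exact h0
    | xb D => exact h0
    | n => exact hn
  | a i j =>
    cases v with
    | y i' j' => exact ite_abs_le hS _ (-1) (by simp)
    | sa i' j' => exact ite_abs_le hS _ 1 (by simp)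
    | sb k' i' => exact h0
    | xa D => exact fin_abs_le _
    | xb D => exact h0
    | n => exact h0
  | b k i =>
    cases v with
    | y i' j' => exact ite_abs_le hS _ (-1) (by simp)
    | sa i' j' => exact h0
    | sb k' i' => exact ite_abs_le hS _ 1 (by simp)
    | xa D => exact h0
    | xb D => exact fin_abs_le _
    | n => exact h0

private theorem sum_one {α β : Type*} [Fintype α] [Fintype β] [DecidableEq α] [DecidableEq β]
    {R : Type*} [CommRing R] (i : α) (j : β) (c : ℤ) (f : α → β → R) :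
    ∑ i', ∑ j', ((if i' = i ∧ j' = j then c else 0 : ℤ) : R) * f i' j' = (c : R) * f i j := by
  rw [Finset.sum_eq_single i]
  · rw [Finset.sum_eq_single j]
    · simp
    · intro b _ hb
      simp [hb]
    · intro h
      exact absurd (Finset.mem_univ _) h
  · intro a _ ha
    simp [ha]
  · intro h
    exact absurd (Finset.mem_univ _) h

theorem rows {L S : ℕ} [NeZero L] {R : Type*} [CommRing R] (x : Va L S → R) :
    (∀ e, ∑ v, (lpm L S e v : R) * x v = 0) ↔
      (∀ i, ∑ j, x (.y i j) = x .n) ∧ (∀ j, ∑ i, x (.y i j) = x .n) ∧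
      (∀ i j, x (.sa i j) + ∑ D : DD L S, ((D (i, j) : ℕ) : R) * x (.xa D) = x (.y i j)) ∧
      (∀ k i, x (.sb k i) + ∑ D : DD L S, ((D (k, i) : ℕ) : R) * x (.xb D) = x (.y i (k + 1))) := by
  have hrow : ∀ i, ∑ v, (lpm L S (.row i) v : R) * x v = ∑ j, x (.y i j) - x .n := by
    intro i
    rw [sum_va]
    have h1 : ∑ i', ∑ j', (lpm L S (.row i) (.y i' j') : R) * x (.y i' j') =
        ∑ j, x (.y i j) := by
      rw [Finset.sum_eq_single i]
      · refine Finset.sum_congr rfl fun j _ => ?_
        simp [lpm]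
      · intro a _ ha
        refine Finset.sum_eq_zero fun j _ => ?_
        simp [lpm, ha]
      · intro h
        exact absurd (Finset.mem_univ _) h
    rw [h1]
    simp [lpm]
    ring
  have hcol : ∀ j, ∑ v, (lpm L S (.col j) v : R) * x v = ∑ i, x (.y i j) - x .n := by
    intro j
    rw [sum_va]
    have h1 : ∑ i', ∑ j', (lpm L S (.col j) (.y i' j') : R) * x (.y i' j') =
        ∑ i, x (.y i j) := by
      refine Finset.sum_congr rfl fun i _ => ?_
      rw [Finset.sum_eq_single j]
      · simp [lpm]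
      · intro a _ ha
        simp [lpm, ha]
      · intro h
        exact absurd (Finset.mem_univ _) h
    rw [h1]
    simp [lpm]
    ring
  have ha : ∀ i j, ∑ v, (lpm L S (.a i j) v : R) * x v =
      x (.sa i j) + ∑ D : DD L S, ((D (i, j) : ℕ) : R) * x (.xa D) - x (.y i j) := by
    intro i j
    rw [sum_va]
    have h1 := sum_one (R := R) i j (-1) fun i' j' => x (.y i' j')
    have h2 := sum_one (R := R) i j 1 fun i' j' => x (.sa i' j')
    have h1' : ∑ i', ∑ j', (lpm L S (.a i j) (.y i' j') : R) * x (.y i' j') = - x (.y i j) := by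
      refine Eq.trans h1 ?_
      push_cast
      ring
    have h2' : ∑ i', ∑ j', (lpm L S (.a i j) (.sa i' j') : R) * x (.sa i' j') = x (.sa i j) := by
      refine Eq.trans h2 ?_
      push_cast
      ring
    rw [h1', h2']
    have h3 : ∑ D : DD L S, (lpm L S (.a i j) (.xa D) : R) * x (.xa D) =
        ∑ D : DD L S, ((D (i, j) : ℕ) : R) * x (.xa D) := by
      refine Finset.sum_congr rfl fun D _ => ?_
      change ((((D (i, j) : ℕ) : ℤ)) : R) * _ = _
      rw [Int.cast_natCast]
    rw [h3]
    have h4 : ∑ k', ∑ i', (lpm L S (.a i j) (.sb k' i') : R) * x (.sb k' i') = 0 := by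
      refine Finset.sum_eq_zero fun k' _ => Finset.sum_eq_zero fun i' _ => ?_
      change ((0 : ℤ) : R) * _ = 0
      rw [Int.cast_zero, zero_mul]
    have h5 : ∑ D : DD L S, (lpm L S (.a i j) (.xb D) : R) * x (.xb D) = 0 := by
      refine Finset.sum_eq_zero fun D _ => ?_
      change ((0 : ℤ) : R) * _ = 0
      rw [Int.cast_zero, zero_mul]
    have h6 : (lpm L S (.a i j) .n : R) * x .n = 0 := by
      change ((0 : ℤ) : R) * _ = 0
      rw [Int.cast_zero, zero_mul]
    rw [h4, h5, h6]
    ring
  have hb : ∀ k i, ∑ v, (lpm L S (.b k i) v : R) * x v =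
      x (.sb k i) + ∑ D : DD L S, ((D (k, i) : ℕ) : R) * x (.xb D) - x (.y i (k + 1)) := by
    intro k i
    rw [sum_va]
    have h1 := sum_one (R := R) i (k + 1) (-1) fun i' j' => x (.y i' j')
    have h2 := sum_one (R := R) k i 1 fun i' j' => x (.sb i' j')
    have h1' : ∑ i', ∑ j', (lpm L S (.b k i) (.y i' j') : R) * x (.y i' j') =
        - x (.y i (k + 1)) := by
      refine Eq.trans h1 ?_
      push_cast
      ring
    have h2' : ∑ i', ∑ j', (lpm L S (.b k i) (.sb i' j') : R) * x (.sb i' j') = x (.sb k i) := by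
      refine Eq.trans h2 ?_
      push_cast
      ring
    rw [h1', h2']
    have h3 : ∑ D : DD L S, (lpm L S (.b k i) (.xb D) : R) * x (.xb D) =
        ∑ D : DD L S, ((D (k, i) : ℕ) : R) * x (.xb D) := by
      refine Finset.sum_congr rfl fun D _ => ?_
      change ((((D (k, i) : ℕ) : ℤ)) : R) * _ = _
      rw [Int.cast_natCast]
    rw [h3]
    have h4 : ∑ k', ∑ i', (lpm L S (.b k i) (.sa k' i') : R) * x (.sa k' i') = 0 := by
      refine Finset.sum_eq_zero fun k' _ => Finset.sum_eq_zero fun i' _ => ?_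
      change ((0 : ℤ) : R) * _ = 0
      rw [Int.cast_zero, zero_mul]
    have h5 : ∑ D : DD L S, (lpm L S (.b k i) (.xa D) : R) * x (.xa D) = 0 := by
      refine Finset.sum_eq_zero fun D _ => ?_
      change ((0 : ℤ) : R) * _ = 0
      rw [Int.cast_zero, zero_mul]
    have h6 : (lpm L S (.b k i) .n : R) * x .n = 0 := by
      change ((0 : ℤ) : R) * _ = 0
      rw [Int.cast_zero, zero_mul]
    rw [h4, h5, h6]
    ring
  constructor
  · intro h
    refine ⟨fun i => ?_, fun j => ?_, fun i j => ?_, fun k i => ?_⟩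
    · have := h (.row i)
      rw [hrow] at this
      exact sub_eq_zero.mp this
    · have := h (.col j)
      rw [hcol] at this
      exact sub_eq_zero.mp this
    · have := h (.a i j)
      rw [ha] at this
      exact sub_eq_zero.mp this
    · have := h (.b k i)
      rw [hb] at this
      exact sub_eq_zero.mp this
  · rintro ⟨h1, h2, h3, h4⟩ e
    cases e with
    | row i => rw [hrow, h1, sub_self]
    | col j => rw [hcol, h2, sub_self]
    | a i j => rw [ha, h3, sub_self]
    | b k i => rw [hb, h4, sub_self]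

end Pool.Agent.Lib.MP_3d915a_al.EG
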