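import Mathlib

/-!
# EG-Siegel: a small integral kernel vector

Let `v r : ι → ℚ` be the rows of `A`. By `exists_linearIndependent'`
there are a type `κ` and an injective `a : κ → ρ` with `v ∘ a` linearly independent and
`span (range (v ∘ a)) = span (range v)`. `κ` is finite (`Finite.of_injective`). All `v r` lie in the kernel `H` of the
functional `y ↦ ∑ y j * x j`, which is not `⊤` because `x ≠ 0`; so `card κ = finrank (span ..) ≤ finrank H < card ι`
(`Submodule.finrank_lt`, `finrank_span_eq_card`); and `card κ ≤ card ρ`.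
If `card κ = 0` then all `v r = 0`: take `t = Pi.single j 1` for some `j` (`ι` is non-empty because `x ≠ 0`).
Otherwise `Int.Matrix.exists_ne_zero_int_vec_norm_le` (Mathlib.NumberTheory.SiegelsLemma; the norm is
`attribute [local instance] Matrix.seminormedAddCommGroup`, the maximum of the entries), or `..._le'`, for the matrix
`A (a k) j` (it is not `0` because its rows are linearly independent and `κ` is non-empty) gives `t ≠ 0` with
`∑ j, A (a k) j * t j = 0` and `‖t‖ ≤ (n * max 1 ‖A'‖) ^ (m / (n - m))`, `m = card κ`, `n = card ι`, `n - m ≥ 1`: since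
the base is at least `1` and at most `n * M` this is at most `(n M) ^ m ≤ (n M) ^ card ρ` (`Real.rpow_le_rpow_of_exponent_le`,
`Real.rpow_natCast`). For every `r` the vector `v r` is in the span of the `v (a k)`, so `∑ j, A r j * t j = 0` too
(`Submodule.span_induction` or the kernel of the linear functional `y ↦ ∑ y j * t j`).
-/

namespace Pool.Agent.Lib.MP_3d915a_al.EG

attribute [local instance] Matrix.seminormedAddCommGroup

open Matrix in
private theorem siegel_aux {α β : Type} [Fintype α] [Fintype β] (A : Matrix α β ℤ) (M : ℕ)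
    (hM : 1 ≤ M) (hA : ∀ r j, |A r j| ≤ M)
    (hn : Fintype.card α < Fintype.card β) (hm : 0 < Fintype.card α) :
    ∃ t : β → ℤ, t ≠ 0 ∧ (∀ r, ∑ j, A r j * t j = 0) ∧
      ∀ j, |t j| ≤ ((Fintype.card β * M) ^ Fintype.card α : ℕ) := by
  obtain ⟨t, ht0, ht1, ht2⟩ := Int.Matrix.exists_ne_zero_int_vec_norm_le A hn hm
  refine ⟨t, ht0, fun r => congrFun ht1 r, fun j => ?_⟩
  have hMr : (1 : ℝ) ≤ M := by exact_mod_cast hM
  have hnorm : ‖A‖ ≤ M := by
    rw [Matrix.norm_le_iff (by positivity)]
    intro i j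
    rw [Int.norm_eq_abs]
    have := hA i j
    exact_mod_cast this
  have hbase : (1 : ℝ) ≤ (Fintype.card β : ℝ) * max 1 ‖A‖ := by
    have h1 : (1 : ℝ) ≤ (Fintype.card β : ℝ) := by
      have : 0 < Fintype.card β := lt_trans hm hn
      exact_mod_cast this
    exact one_le_mul_of_one_le_of_one_le h1 (le_max_left _ _)
  have hexp : ((Fintype.card α : ℝ) / ((Fintype.card β : ℝ) - Fintype.card α)) ≤ (Fintype.card α : ℝ) := by
    have h1 : (1 : ℝ) ≤ (Fintype.card β : ℝ) - Fintype.card α := by
      have : (Fintype.card α : ℝ) + 1 ≤ Fintype.card β := by exact_mod_cast hn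
      linarith
    exact div_le_self (Nat.cast_nonneg _) h1
  have h3 : ‖t j‖ ≤ ((Fintype.card β : ℝ) * M) ^ Fintype.card α := by
    calc ‖t j‖ ≤ ‖t‖ := norm_le_pi_norm t j
      _ ≤ ((Fintype.card β : ℝ) * max 1 ‖A‖) ^ ((Fintype.card α : ℝ) / ((Fintype.card β : ℝ) - Fintype.card α)) := ht2
      _ ≤ ((Fintype.card β : ℝ) * max 1 ‖A‖) ^ ((Fintype.card α : ℝ)) :=
          Real.rpow_le_rpow_of_exponent_le hbase hexp
      _ = ((Fintype.card β : ℝ) * max 1 ‖A‖) ^ (Fintype.card α) := Real.rpow_natCast _ _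
      _ ≤ ((Fintype.card β : ℝ) * M) ^ Fintype.card α := by
          apply pow_le_pow_left₀ (by positivity)
          exact mul_le_mul_of_nonneg_left (max_le hMr hnorm) (Nat.cast_nonneg _)
  rw [Int.norm_eq_abs] at h3
  have h4 : ((|t j| : ℤ) : ℝ) ≤ (((Fintype.card β * M) ^ Fintype.card α : ℕ) : ℝ) := by
    push_cast
    exact h3
  exact_mod_cast h4

theorem siegel_rows {ι ρ : Type} [Fintype ι] [DecidableEq ι] [Fintype ρ] (A : ρ → ι → ℤ) (M : ℕ)
    (hM : 1 ≤ M) (hA : ∀ r j, |A r j| ≤ M) (x : ι → ℚ) (hx0 : x ≠ 0)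
    (hx : ∀ r, ∑ j, (A r j : ℚ) * x j = 0) :
    ∃ t : ι → ℤ, t ≠ 0 ∧ (∀ r, ∑ j, A r j * t j = 0) ∧
      ∀ j, |t j| ≤ ((Fintype.card ι * M) ^ Fintype.card ρ : ℕ) := by
  classical
  let v : ρ → (ι → ℚ) := fun r j => (A r j : ℚ)
  obtain ⟨κ, a, ha, hsp, hli⟩ := exists_linearIndependent' ℚ v
  haveI : Finite κ := Finite.of_injective a ha
  haveI : Fintype κ := Fintype.ofFinite κ
  -- the functional of a vector
  let F : (ι → ℚ) → ((ι → ℚ) →ₗ[ℚ] ℚ) := fun y =>
    { toFun := fun w => ∑ j, w j * y j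
      map_add' := by
        intro w w'
        simp only [Pi.add_apply, add_mul, Finset.sum_add_distrib]
      map_smul' := by
        intro c w
        simp only [Pi.smul_apply, smul_eq_mul, RingHom.id_apply, Finset.mul_sum, mul_assoc] }
  have hH : Submodule.span ℚ (Set.range v) ≤ LinearMap.ker (F x) := by
    rw [Submodule.span_le]
    rintro w ⟨r, rfl⟩
    exact hx r
  obtain ⟨j0, hj0⟩ := Function.ne_iff.mp hx0
  have hne : LinearMap.ker (F x) ≠ ⊤ := by
    intro h
    have h1 : (Pi.single j0 1 : ι → ℚ) ∈ LinearMap.ker (F x) := by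
      rw [h]
      trivial
    have h2 : ∑ j, (Pi.single j0 1 : ι → ℚ) j * x j = 0 := h1
    rw [Finset.sum_eq_single j0] at h2
    · rw [Pi.single_eq_same, one_mul] at h2
      exact hj0 h2
    · intro b _ hb
      rw [Pi.single_eq_of_ne hb, zero_mul]
    · intro h3
      exact absurd (Finset.mem_univ j0) h3
  have hcard : Fintype.card κ < Fintype.card ι := by
    have h1 := finrank_span_eq_card hli
    have h2 : Module.finrank ℚ (Submodule.span ℚ (Set.range v)) ≤
        Module.finrank ℚ (LinearMap.ker (F x)) := Submodule.finrank_mono hH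
    have h3 := Submodule.finrank_lt hne
    rw [Module.finrank_fintype_fun_eq_card] at h3
    rw [hsp] at h1
    omega
  have hcard' : Fintype.card κ ≤ Fintype.card ρ := Fintype.card_le_of_injective a ha
  have hι : 0 < Fintype.card ι := lt_of_le_of_lt (Nat.zero_le _) hcard
  have hb : 1 ≤ Fintype.card ι * M := Nat.mul_pos hι hM
  -- a vector orthogonal to the rows `a k` is orthogonal to all rows
  have key : ∀ t : ι → ℤ, (∀ k, ∑ j, A (a k) j * t j = 0) → ∀ r, ∑ j, A r j * t j = 0 := by
    intro t ht r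
    have h1 : Submodule.span ℚ (Set.range (v ∘ a)) ≤ LinearMap.ker (F fun j => (t j : ℚ)) := by
      rw [Submodule.span_le]
      rintro w ⟨k, rfl⟩
      show ∑ j, (A (a k) j : ℚ) * (t j : ℚ) = 0
      have := ht k
      exact_mod_cast this
    have h2 : v r ∈ LinearMap.ker (F fun j => (t j : ℚ)) := by
      apply h1
      rw [hsp]
      exact Submodule.subset_span ⟨r, rfl⟩
    have h3 : ∑ j, (A r j : ℚ) * (t j : ℚ) = 0 := h2
    exact_mod_cast h3
  rcases Nat.eq_zero_or_pos (Fintype.card κ) with h0 | hpos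
  · refine ⟨Pi.single j0 1, ?_, key _ fun k => ?_, fun j => ?_⟩
    · intro h
      have := congrFun h j0
      rw [Pi.single_eq_same] at this
      exact one_ne_zero this
    · exact absurd (Fintype.card_pos_iff.mpr ⟨k⟩) (by omega)
    · have h1 : (1 : ℤ) ≤ (((Fintype.card ι * M) ^ Fintype.card ρ : ℕ) : ℤ) := by
        exact_mod_cast Nat.one_le_pow _ _ hb
      by_cases hj : j = j0
      · subst hj
        rw [Pi.single_eq_same, abs_one]
        exact h1
      · rw [Pi.single_eq_of_ne hj, abs_zero]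
        omega
  · obtain ⟨t, ht0, ht1, ht2⟩ := siegel_aux (fun k j => A (a k) j) M hM (fun k j => hA (a k) j)
      hcard hpos
    refine ⟨t, ht0, key t ht1, fun j => (ht2 j).trans ?_⟩
    exact_mod_cast Nat.pow_le_pow_right hb hcard'

end Pool.Agent.Lib.MP_3d915a_al.EG
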