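import Pool.Agent.Lib.MP_3d915a_al.EG.Basis
import Pool.Agent.Lib.MP_3d915a_al.EG.Cone

/-!
# EG-SmallEq: decomposition of a balanced matrix with visits in `VS m M`

`D i j ≥ 0` (rational) is balanced and its row sums are in `VS m M`. Then `D` is a combination of at most `L² + 2L` integral
balanced matrices `E ≥ 0` with row sums in `VS m M` and entries at most `((L² + 2L) M)^(2L)`.
Apply `cone` with the variables `(ZMod L × ZMod L) ⊕ (ZMod L ⊕ ZMod L)` (the entries of `D`, and `c k ⁺`, `c k ⁻`), `card = L^2 + 2 L`, and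
the equations `ZMod L ⊕ ZMod L`: `∑ j, D i j - ∑ j, D j i = 0` and `∑ j, D i j - ∑ k, (c⁺ k - c⁻ k) r k i = 0`, `card = 2 L`, where
`r` is from `basis` (`|r k i| ≤ M`; the coefficients of the first kind are `0, 1, -1`: for `(a, b)` it is
`(if a = i then 1 else 0) - (if b = i then 1 else 0)`), `c⁺ = max c 0`, `c⁻ = max (-c) 0` for `c` from `basis`.
For `q ∈ l` take `E i j = q.2 (Sum.inl (i, j))`; its row sums are `∑ k, (q.2 (c⁺ k) - q.2 (c⁻ k)) r k i`: in `VS m M` by `basis`.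
-/

namespace Pool.Agent.Lib.MP_3d915a_al.EG

/-- the variables -/
private abbrev SIx (L : ℕ) := (ZMod L × ZMod L) ⊕ (ZMod L ⊕ ZMod L)

/-- the equations -/
private abbrev SRx (L : ℕ) := ZMod L ⊕ ZMod L

/-- the coefficients -/
private def sA {L : ℕ} (r : ZMod L → ZMod L → ℤ) : SRx L → SIx L → ℤ
  | .inl i, .inl q => (if q.1 = i then 1 else 0) - (if q.2 = i then 1 else 0)
  | .inl _, .inr _ => 0
  | .inr i, .inl q => if q.1 = i then 1 else 0
  | .inr i, .inr (.inl k) => - r k i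
  | .inr i, .inr (.inr k) => r k i

private theorem sA_le {L : ℕ} (r : ZMod L → ZMod L → ℤ) (M : ℕ) (hM : 1 ≤ M) (hr : ∀ k i, |r k i| ≤ M)
    (a : SRx L) (v : SIx L) : |sA r a v| ≤ M := by
  have hM' : (1 : ℤ) ≤ M := by exact_mod_cast hM
  rcases a with i | i <;> rcases v with q | k | k
  · simp only [sA]
    split_ifs <;> simp <;> omega
  · simp [sA]
  · simp [sA]
  · simp only [sA]
    split_ifs <;> simp <;> omega
  · simp only [sA, abs_neg]
    exact hr k i
  · simp only [sA]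
    exact hr k i

private theorem sA_inl {L : ℕ} [NeZero L] {R : Type} [CommRing R] (r : ZMod L → ZMod L → ℤ) (i : ZMod L)
    (f : SIx L → R) :
    ∑ v, ((sA r (.inl i) v : ℤ) : R) * f v = ∑ b, f (.inl (i, b)) - ∑ a, f (.inl (a, i)) := by
  rw [Fintype.sum_sum_type]
  have h2 : ∑ v : ZMod L ⊕ ZMod L, ((sA r (.inl i) (.inr v) : ℤ) : R) * f (.inr v) = 0 := by
    refine Finset.sum_eq_zero fun v _ => ?_
    simp [sA]
  have h1 : ∑ q : ZMod L × ZMod L, ((sA r (.inl i) (.inl q) : ℤ) : R) * f (.inl q) =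
      ∑ q : ZMod L × ZMod L, (if q.1 = i then f (.inl q) else 0) -
        ∑ q : ZMod L × ZMod L, (if q.2 = i then f (.inl q) else 0) := by
    rw [← Finset.sum_sub_distrib]
    refine Finset.sum_congr rfl fun q _ => ?_
    simp only [sA]
    split_ifs <;> simp
  rw [h1, h2, add_zero]
  congr 1
  · rw [Fintype.sum_prod_type, Finset.sum_comm]
    refine Finset.sum_congr rfl fun b _ => ?_
    simp
  · rw [Fintype.sum_prod_type]
    refine Finset.sum_congr rfl fun a _ => ?_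
    simp

private theorem sA_inr {L : ℕ} [NeZero L] {R : Type} [CommRing R] (r : ZMod L → ZMod L → ℤ) (i : ZMod L)
    (f : SIx L → R) :
    ∑ v, ((sA r (.inr i) v : ℤ) : R) * f v =
      ∑ b, f (.inl (i, b)) - ∑ k, (f (.inr (.inl k)) - f (.inr (.inr k))) * (r k i : R) := by
  rw [Fintype.sum_sum_type, Fintype.sum_sum_type]
  have h1 : ∑ q : ZMod L × ZMod L, ((sA r (.inr i) (.inl q) : ℤ) : R) * f (.inl q) =
      ∑ b, f (.inl (i, b)) := by
    rw [Fintype.sum_prod_type, Finset.sum_comm]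
    refine Finset.sum_congr rfl fun b _ => ?_
    simp [sA]
  have h2 : ∑ k, (f (.inr (.inl k)) - f (.inr (.inr k))) * (r k i : R) =
      -(∑ k, ((sA r (.inr i) (.inr (.inl k)) : ℤ) : R) * f (.inr (.inl k)) +
        ∑ k, ((sA r (.inr i) (.inr (.inr k)) : ℤ) : R) * f (.inr (.inr k))) := by
    rw [← Finset.sum_add_distrib, ← Finset.sum_neg_distrib]
    refine Finset.sum_congr rfl fun k _ => ?_
    simp only [sA, Int.cast_neg]
    ring
  rw [h1, h2]
  ring

theorem small_eq {L : ℕ} [NeZero L] (m : ZMod L → ℤ) (M : ℕ) (hM : 1 ≤ M)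
    (D : ZMod L → ZMod L → ℚ) (h0 : ∀ i j, 0 ≤ D i j) (hb : ∀ i, ∑ j, D i j = ∑ j, D j i)
    (hv : (fun i => ∑ j, D i j) ∈ VS m M) :
    ∃ l : List (ℚ × (ZMod L → ZMod L → ℕ)), l.length ≤ L ^ 2 + 2 * L ∧
      (∀ q ∈ l, 0 < q.1 ∧ (∀ i, ∑ j, q.2 i j = ∑ j, q.2 j i) ∧
        (fun i => ((∑ j, q.2 i j : ℕ) : ℚ)) ∈ VS m M ∧
        ∀ i j, q.2 i j ≤ ((L ^ 2 + 2 * L) * M) ^ (2 * L)) ∧
      ∀ i j, D i j = (l.map (fun q => q.1 * (q.2 i j : ℚ))).sum := by
  obtain ⟨r, hr, -, hVS⟩ := basis m M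
  obtain ⟨c, hc⟩ := (hVS _).1 hv
  have hcι : Fintype.card (SIx L) = L ^ 2 + 2 * L := by
    simp only [Fintype.card_sum, Fintype.card_prod, ZMod.card]
    ring
  have hcρ : Fintype.card (SRx L) = 2 * L := by
    simp only [Fintype.card_sum, ZMod.card]
    ring
  obtain ⟨x, hx⟩ : ∃ x : SIx L → ℚ, x = fun v => match v with
    | .inl q => D q.1 q.2
    | .inr (.inl k) => max (c k) 0
    | .inr (.inr k) => max (-c k) 0 := ⟨_, rfl⟩
  have hx1 : ∀ i j, x (.inl (i, j)) = D i j := fun i j => by rw [hx]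
  have hx2 : ∀ k, x (.inr (.inl k)) = max (c k) 0 := fun k => by rw [hx]
  have hx3 : ∀ k, x (.inr (.inr k)) = max (-c k) 0 := fun k => by rw [hx]
  have hx0 : ∀ v, 0 ≤ x v := by
    rintro (⟨i, j⟩ | k | k)
    · rw [hx1]
      exact h0 i j
    · rw [hx2]
      exact le_max_right _ _
    · rw [hx3]
      exact le_max_right _ _
  have hcm : ∀ k, max (c k) 0 - max (-c k) 0 = c k := by
    intro k
    rcases le_total 0 (c k) with h | h
    · rw [max_eq_left h, max_eq_right (by linarith)]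
      ring
    · rw [max_eq_right h, max_eq_left (by linarith)]
      ring
  have hxA : ∀ a, ∑ v, ((sA r a v : ℤ) : ℚ) * x v = 0 := by
    rintro (i | i)
    · rw [sA_inl, sub_eq_zero]
      simp only [hx1]
      exact hb i
    · rw [sA_inr, sub_eq_zero]
      simp only [hx1, hx2, hx3, hcm]
      exact hc i
  obtain ⟨l, hl1, hl2, hl3⟩ := cone (sA r) M hM (sA_le r M hM hr) x hx0 hxA
  rw [hcι] at hl1
  refine ⟨l.map (fun q => (q.1, fun i j => q.2 (.inl (i, j)))), by rw [List.length_map]; exact hl1, ?_, ?_⟩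
  · intro q' hq'
    rw [List.mem_map] at hq'
    obtain ⟨q, hq, rfl⟩ := hq'
    obtain ⟨h1, h2, h3⟩ := hl2 q hq
    refine ⟨h1, ?_, ?_, ?_⟩
    · intro i
      have h4 := h2 (.inl i)
      have h5 := sA_inl r i (fun v => (q.2 v : ℤ))
      simp only [Int.cast_id] at h5
      rw [h5, sub_eq_zero] at h4
      show ∑ j, q.2 (.inl (i, j)) = ∑ j, q.2 (.inl (j, i))
      exact_mod_cast h4
    · rw [hVS]
      refine ⟨fun k => (q.2 (.inr (.inl k)) : ℚ) - (q.2 (.inr (.inr k)) : ℚ), ?_⟩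
      intro i
      have h4 := h2 (.inr i)
      have h5 := sA_inr r i (fun v => (q.2 v : ℚ))
      have h6 : ∑ v, ((sA r (.inr i) v : ℤ) : ℚ) * (q.2 v : ℚ) = 0 := by
        have h7 : ((∑ v, sA r (.inr i) v * (q.2 v : ℤ) : ℤ) : ℚ) = 0 := by rw [h4]; rfl
        push_cast at h7
        exact h7
      rw [h6] at h5
      show ((∑ j, q.2 (.inl (i, j)) : ℕ) : ℚ) = _
      push_cast
      linarith
    · intro i j
      have h4 := h3 (.inl (i, j))
      rw [hcι, hcρ] at h4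
      exact h4
  · intro i j
    rw [← hx1, hl3, List.map_map]
    rfl

end Pool.Agent.Lib.MP_3d915a_al.EG
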